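import Pool.Agent.Helper33.KV.GoalsF
import Pool.Agent.Helper61.KV.ECL1
import Pool.Agent.Helper61.KV.QF
import Pool.Agent.Helper38.KV.PR

/-!
# Project KV, section F: common tools (classes of the profiles, polynomials in `ρ`)
-/

set_option autoImplicit false

namespace Pool.Agent.Helper98.KV

open Real MeasureTheory Pool.Agent.Helper41.KV Pool.Agent.Helper33.KV
open Pool.Agent.Helper61.KV (addE addP mulPE mulPP derE derP polyP thP sechE intE unifE unifP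
  hasDerivAt_th th_sq cda poly_exp)

lemma E_P {f : ℝ → ℝ} (hf : IsE f) : IsP f := Pool.Agent.Helper61.KV.E_P hf

lemma cP (c : ℝ) : IsP (fun _ => c) := by
  simpa using polyP (Polynomial.C c)

lemma idP : IsP (fun y => y) := by
  simpa using polyP Polynomial.X

lemma smulE (c : ℝ) {f : ℝ → ℝ} (hf : IsE f) : IsE (fun y => c * f y) := mulPE (cP c) hf

lemma smulP (c : ℝ) {f : ℝ → ℝ} (hf : IsP f) : IsP (fun y => c * f y) := mulPP (cP c) hf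

lemma subE {f g : ℝ → ℝ} (hf : IsE f) (hg : IsE g) : IsE (fun y => f y - g y) := by
  have h := addE hf (smulE (-1) hg)
  have he : (fun y => f y + -1 * g y) = fun y => f y - g y := by funext y; ring
  rwa [he] at h

lemma subP {f g : ℝ → ℝ} (hf : IsP f) (hg : IsP g) : IsP (fun y => f y - g y) := by
  have h := addP hf (smulP (-1) hg)
  have he : (fun y => f y + -1 * g y) = fun y => f y - g y := by funext y; ring
  rwa [he] at h

lemma powP {f : ℝ → ℝ} (hf : IsP f) (n : ℕ) : IsP (fun y => f y ^ n) := by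
  induction n with
  | zero => simpa using cP 1
  | succ n ih =>
    have h := mulPP ih hf
    have he : (fun y => f y ^ n * f y) = fun y => f y ^ (n + 1) := by
      funext y; ring
    rwa [he] at h

lemma powE {f : ℝ → ℝ} (hf : IsE f) (n : ℕ) : IsE (fun y => f y ^ (n + 1)) := by
  have h := mulPE (powP (E_P hf) n) hf
  have he : (fun y => f y ^ n * f y) = fun y => f y ^ (n + 1) := by
    funext y; ring
  rwa [he] at h

lemma QE : IsE Q := Pool.Agent.Helper38.KV.isE_Q thm_QF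

lemma LamQE : IsE (Lam Q) := Pool.Agent.Helper38.KV.isE_Lam thm_QF thm_ECL1

lemma dP {f : ℝ → ℝ} (hf : IsP f) (y : ℝ) : HasDerivAt f (deriv f y) y :=
  ((hf.1.differentiable (by simp)) y).hasDerivAt

lemma dE {f : ℝ → ℝ} (hf : IsE f) (y : ℝ) : HasDerivAt f (deriv f y) y :=
  ((hf.1.differentiable (by simp)) y).hasDerivAt

/-- `2 sech^2 (2y)` as the derivative of `tanh` -/
lemma dth (y : ℝ) : HasDerivAt (fun y => Real.tanh (2 * y)) (2 * (1 / (Real.cosh (2 * y)) ^ 2)) y := by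
  have h := hasDerivAt_th y
  rw [th_sq] at h
  exact h.congr_deriv (by ring)

lemma LopE {f : ℝ → ℝ} (hf : IsE f) : IsE (Lop f) := by
  have h1 := subE hf (derE (derE hf))
  have h2 := subE h1 (mulPE (smulP 5 (powP (E_P QE) 4)) hf)
  have he : (fun y => f y - deriv (deriv f) y - 5 * Q y ^ 4 * f y) = Lop f := by
    funext y; unfold Lop; ring
  rwa [he] at h2

lemma LamE {f : ℝ → ℝ} (hf : IsE f) : IsE (Lam f) := by
  have h1 := smulE (1 / 2) hf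
  have h2 := addE h1 (mulPE idP (derE hf))
  have he : (fun y => 1 / 2 * f y + y * deriv f y) = Lam f := by
    funext y; unfold Lam; ring
  rwa [he] at h2

section Prof

variable {Z Y V2 : ℝ → ℝ} {α : ℝ}

lemma Z_P (hZ : IsZ1 Z) : IsP Z := by
  have h := addP (E_P hZ.tail) thP
  have he : (fun y => Z y - Real.tanh (2 * y) + Real.tanh (2 * y)) = Z := by
    funext y; ring
  rwa [he] at h

lemma dZ_E (hZ : IsZ1 Z) : IsE (deriv Z) := by
  have h1 := derE hZ.tail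
  have h2 := addE h1 (smulE 2 sechE)
  have he : (fun y => deriv (fun y => Z y - Real.tanh (2 * y)) y +
      2 * (1 / (Real.cosh (2 * y)) ^ 2)) = deriv Z := by
    funext y
    have hd : HasDerivAt (fun y => Z y - Real.tanh (2 * y))
      (deriv Z y - 2 * (1 / (Real.cosh (2 * y)) ^ 2)) y := (dP (Z_P hZ) y).sub (dth y)
    rw [hd.deriv]
    ring
  rwa [he] at h2

lemma V2_P (hV : IsV2 α Z V2) : IsP V2 := by
  obtain ⟨p, q, h⟩ := hV.tail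
  have h1 := addP (E_P h) (addP (addP (cP p) (smulP q thP)) (mulPP (smulP (cc α) idP) thP))
  have he : (fun y => (V2 y - (p + q * Real.tanh (2 * y)) - cc α * y * Real.tanh (2 * y)) +
      ((p + q * Real.tanh (2 * y)) + cc α * y * Real.tanh (2 * y))) = V2 := by
    funext y; ring
  rwa [he] at h1

/-- `V2' - c Z` is exponentially localised -/
lemma dV2_E (hZ : IsZ1 Z) (hV : IsV2 α Z V2) : IsE (fun y => deriv V2 y - cc α * Z y) := by
  have hVP := V2_P hV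
  obtain ⟨p, q, h⟩ := hV.tail
  have h1 := derE h
  have h2 := addE h1 (smulE (2 * q) sechE)
  have h3 := addE h2 (mulPE (smulP (2 * cc α) idP) sechE)
  have h4 := subE h3 (smulE (cc α) hZ.tail)
  have he : (fun y => deriv (fun y => V2 y - (p + q * Real.tanh (2 * y)) -
      cc α * y * Real.tanh (2 * y)) y + 2 * q * (1 / (Real.cosh (2 * y)) ^ 2) +
      2 * cc α * y * (1 / (Real.cosh (2 * y)) ^ 2) - cc α * (Z y - Real.tanh (2 * y)))
      = fun y => deriv V2 y - cc α * Z y := by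
    funext y
    have hd := (((dP hVP y).sub (((dth y).const_mul q).const_add p)).sub
      ((((hasDerivAt_id y).const_mul (cc α)).mul (dth y))))
    have hd' : HasDerivAt (fun y => V2 y - (p + q * Real.tanh (2 * y)) -
      cc α * y * Real.tanh (2 * y)) (deriv V2 y - q * (2 * (1 / (Real.cosh (2 * y)) ^ 2)) -
      (cc α * 1 * Real.tanh (2 * y) + cc α * id y * (2 * (1 / (Real.cosh (2 * y)) ^ 2)))) y := hd
    rw [hd'.deriv]
    simp only [id]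
    ring
  rwa [he] at h4

end Prof

/-! ### polynomials in `ρ` -/

/-- quadratic polynomial in `ρ` with coefficient functions -/
def pl (e0 e1 e2 : ℝ → ℝ) (ρ y : ℝ) : ℝ := e0 y + ρ * e1 y + ρ ^ 2 * e2 y

lemma pl_E {e0 e1 e2 : ℝ → ℝ} (h0 : IsE e0) (h1 : IsE e1) (h2 : IsE e2) (ρ : ℝ) :
    IsE (pl e0 e1 e2 ρ) := addE (addE h0 (smulE ρ h1)) (smulE (ρ ^ 2) h2)

lemma pl_it {e0 e1 e2 : ℝ → ℝ} (h0 : IsE e0) (h1 : IsE e1) (h2 : IsE e2) (ρ : ℝ) (k : ℕ) (y : ℝ) :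
    iteratedDeriv k (pl e0 e1 e2 ρ) y =
      iteratedDeriv k e0 y + ρ * iteratedDeriv k e1 y + ρ ^ 2 * iteratedDeriv k e2 y := by
  have hr1 := smulE ρ h1
  have hr2 := smulE (ρ ^ 2) h2
  have e : pl e0 e1 e2 ρ = fun y => (e0 y + ρ * e1 y) + ρ ^ 2 * e2 y := rfl
  rw [e, iteratedDeriv_fun_add (cda (addE h0 hr1).1 k y) (cda hr2.1 k y),
    iteratedDeriv_fun_add (cda h0.1 k y) (cda hr1.1 k y),
    iteratedDeriv_const_mul_field, iteratedDeriv_const_mul_field]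

/-- bounds uniform in `ρ ∈ [0,1]` -/
lemma pl_bd {e0 e1 e2 : ℝ → ℝ} (h0 : IsE e0) (h1 : IsE e1) (h2 : IsE e2) (N : ℕ) (μ : ℝ)
    (hμ : μ < 1) : ∃ C, 0 ≤ C ∧ ∀ ρ, 0 ≤ ρ → ρ ≤ 1 → ∀ k ≤ N, ∀ y,
      |iteratedDeriv k (pl e0 e1 e2 ρ) y| ≤ C * Real.exp (-(μ * |y|)) := by
  obtain ⟨A, hA0, hA⟩ := unifE h0 N μ hμ
  obtain ⟨B, hB0, hB⟩ := unifE h1 N μ hμ
  obtain ⟨D, hD0, hD⟩ := unifE h2 N μ hμ
  refine ⟨A + B + D, by positivity, fun ρ hρ0 hρ1 k hk y => ?_⟩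
  rw [pl_it h0 h1 h2]
  have q1 := hA k hk y
  have q2 := hB k hk y
  have q3 := hD k hk y
  have hex := Real.exp_pos (-(μ * |y|))
  have hρ2 : ρ ^ 2 ≤ 1 := pow_le_one₀ hρ0 hρ1
  have t1 : |ρ * iteratedDeriv k e1 y| ≤ B * Real.exp (-(μ * |y|)) := by
    rw [abs_mul, abs_of_nonneg hρ0]
    exact (mul_le_of_le_one_left (abs_nonneg _) hρ1).trans q2
  have t2 : |ρ ^ 2 * iteratedDeriv k e2 y| ≤ D * Real.exp (-(μ * |y|)) := by
    rw [abs_mul, abs_of_nonneg (pow_nonneg hρ0 2)]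
    exact (mul_le_of_le_one_left (abs_nonneg _) hρ2).trans q3
  refine (abs_add_le _ _).trans ?_
  have t3 := abs_add_le (iteratedDeriv k e0 y) (ρ * iteratedDeriv k e1 y)
  nlinarith

lemma pl_deriv {e0 e1 e2 : ℝ → ℝ} (h0 : IsE e0) (h1 : IsE e1) (h2 : IsE e2) (ρ : ℝ) :
    deriv (pl e0 e1 e2 ρ) = pl (deriv e0) (deriv e1) (deriv e2) ρ := by
  funext y
  have h := pl_it h0 h1 h2 ρ 1 y
  simpa only [iteratedDeriv_one, pl] using h

lemma Lop_pl {e0 e1 e2 : ℝ → ℝ} (h0 : IsE e0) (h1 : IsE e1) (h2 : IsE e2) (ρ : ℝ) :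
    Lop (pl e0 e1 e2 ρ) = pl (Lop e0) (Lop e1) (Lop e2) ρ := by
  funext y
  unfold Lop
  rw [pl_deriv h0 h1 h2, pl_deriv (derE h0) (derE h1) (derE h2)]
  unfold pl
  ring

lemma Lam_pl {e0 e1 e2 : ℝ → ℝ} (h0 : IsE e0) (h1 : IsE e1) (h2 : IsE e2) (ρ : ℝ) :
    Lam (pl e0 e1 e2 ρ) = pl (Lam e0) (Lam e1) (Lam e2) ρ := by
  funext y
  unfold Lam
  rw [pl_deriv h0 h1 h2]
  unfold pl
  ring

/-- pairing of two polynomials -/
lemma pl_pair {e0 e1 e2 f0 f1 f2 : ℝ → ℝ} (h0 : IsE e0) (h1 : IsE e1) (h2 : IsE e2)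
    (g0 : IsP f0) (g1 : IsP f1) (g2 : IsP f2) (ρ : ℝ) :
    (∫ y, pl e0 e1 e2 ρ y * pl f0 f1 f2 ρ y) = (∫ y, e0 y * f0 y)
      + ρ * ((∫ y, e0 y * f1 y) + ∫ y, e1 y * f0 y)
      + ρ ^ 2 * ((∫ y, e0 y * f2 y) + (∫ y, e1 y * f1 y) + ∫ y, e2 y * f0 y)
      + ρ ^ 3 * ((∫ y, e1 y * f2 y) + ∫ y, e2 y * f1 y) + ρ ^ 4 * ∫ y, e2 y * f2 y := by
  have mk : ∀ {e f : ℝ → ℝ}, IsE e → IsP f → Integrable (fun y => e y * f y) := by
    intro e f he hf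
    have h := intE (mulPE hf he)
    have hh : (fun y => f y * e y) = fun y => e y * f y := by funext y; ring
    rwa [hh] at h
  have i00 := mk h0 g0
  have i01 := mk h0 g1
  have i02 := mk h0 g2
  have i10 := mk h1 g0
  have i11 := mk h1 g1
  have i12 := mk h1 g2
  have i20 := mk h2 g0
  have i21 := mk h2 g1
  have i22 := mk h2 g2
  have e : (fun y => pl e0 e1 e2 ρ y * pl f0 f1 f2 ρ y) = fun y => e0 y * f0 y
      + ρ * (e0 y * f1 y + e1 y * f0 y)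
      + ρ ^ 2 * (e0 y * f2 y + e1 y * f1 y + e2 y * f0 y)
      + ρ ^ 3 * (e1 y * f2 y + e2 y * f1 y) + ρ ^ 4 * (e2 y * f2 y) := by
    funext y; unfold pl; ring
  have s1 : (∫ y, (e0 y * f2 y + e1 y * f1 y + e2 y * f0 y)) =
      (∫ y, e0 y * f2 y) + (∫ y, e1 y * f1 y) + ∫ y, e2 y * f0 y := by
    rw [← integral_add i02 i11]
    exact integral_add (i02.add i11) i20
  rw [e, integral_add, integral_add, integral_add, integral_add, integral_const_mul,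
    integral_const_mul, integral_const_mul, integral_const_mul, integral_add i01 i10,
    s1, integral_add i12 i21]
  · exact i00
  · exact (i01.add i10).const_mul ρ
  · exact i00.add ((i01.add i10).const_mul ρ)
  · exact ((i02.add i11).add i20).const_mul _
  · exact (i00.add ((i01.add i10).const_mul ρ)).add (((i02.add i11).add i20).const_mul _)
  · exact (i12.add i21).const_mul _
  · exact ((i00.add ((i01.add i10).const_mul ρ)).add (((i02.add i11).add i20).const_mul _)).add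
      ((i12.add i21).const_mul _)
  · exact i22.const_mul _

lemma pl_pair_bd {e0 e1 e2 f0 f1 f2 : ℝ → ℝ} (h0 : IsE e0) (h1 : IsE e1) (h2 : IsE e2)
    (g0 : IsP f0) (g1 : IsP f1) (g2 : IsP f2) : ∃ C, 0 ≤ C ∧ ∀ ρ : ℝ, 0 ≤ ρ → ρ ≤ 1 →
    |(∫ y, pl e0 e1 e2 ρ y * pl f0 f1 f2 ρ y) - ∫ y, e0 y * f0 y| ≤ C * ρ ∧
    |(∫ y, pl e0 e1 e2 ρ y * pl f0 f1 f2 ρ y) - (∫ y, e0 y * f0 y)
      - ρ * ((∫ y, e0 y * f1 y) + ∫ y, e1 y * f0 y)| ≤ C * ρ ^ 2 := by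
  obtain ⟨c1, hc1⟩ : ∃ c1 : ℝ, c1 = (∫ y, e0 y * f1 y) + ∫ y, e1 y * f0 y := ⟨_, rfl⟩
  obtain ⟨c2, hc2⟩ : ∃ c2 : ℝ, c2 = (∫ y, e0 y * f2 y) + (∫ y, e1 y * f1 y) +
    ∫ y, e2 y * f0 y := ⟨_, rfl⟩
  obtain ⟨c3, hc3⟩ : ∃ c3 : ℝ, c3 = (∫ y, e1 y * f2 y) + ∫ y, e2 y * f1 y := ⟨_, rfl⟩
  obtain ⟨c4, hc4⟩ : ∃ c4 : ℝ, c4 = ∫ y, e2 y * f2 y := ⟨_, rfl⟩
  refine ⟨|c1| + |c2| + |c3| + |c4|, by positivity, fun ρ h hr => ?_⟩
  rw [pl_pair h0 h1 h2 g0 g1 g2 ρ, ← hc1, ← hc2, ← hc3, ← hc4]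
  have a1 := abs_nonneg c1
  have a2 := abs_nonneg c2
  have a3 := abs_nonneg c3
  have a4 := abs_nonneg c4
  have r2 : ρ ^ 2 ≤ ρ := by nlinarith
  have r3 : ρ ^ 3 ≤ ρ ^ 2 := by nlinarith [pow_nonneg h 2]
  have r4 : ρ ^ 4 ≤ ρ ^ 2 := by nlinarith [pow_nonneg h 2, pow_nonneg h 3]
  have m1 : |ρ * c1| = ρ * |c1| := by rw [abs_mul, abs_of_nonneg h]
  have m2 : |ρ ^ 2 * c2| = ρ ^ 2 * |c2| := by rw [abs_mul, abs_of_nonneg (pow_nonneg h 2)]
  have m3 : |ρ ^ 3 * c3| = ρ ^ 3 * |c3| := by rw [abs_mul, abs_of_nonneg (pow_nonneg h 3)]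
  have m4 : |ρ ^ 4 * c4| = ρ ^ 4 * |c4| := by rw [abs_mul, abs_of_nonneg (pow_nonneg h 4)]
  constructor
  · have e : (∫ y, e0 y * f0 y) + ρ * c1 + ρ ^ 2 * c2 + ρ ^ 3 * c3 + ρ ^ 4 * c4
        - (∫ y, e0 y * f0 y) = ρ * c1 + ρ ^ 2 * c2 + ρ ^ 3 * c3 + ρ ^ 4 * c4 := by ring
    rw [e]
    have t1 := abs_add_le (ρ * c1 + ρ ^ 2 * c2 + ρ ^ 3 * c3) (ρ ^ 4 * c4)
    have t2 := abs_add_le (ρ * c1 + ρ ^ 2 * c2) (ρ ^ 3 * c3)
    have t3 := abs_add_le (ρ * c1) (ρ ^ 2 * c2)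
    have n2 : ρ ^ 2 * |c2| ≤ ρ * |c2| := mul_le_mul_of_nonneg_right r2 a2
    have n3 : ρ ^ 3 * |c3| ≤ ρ * |c3| := mul_le_mul_of_nonneg_right (r3.trans r2) a3
    have n4 : ρ ^ 4 * |c4| ≤ ρ * |c4| := mul_le_mul_of_nonneg_right (r4.trans r2) a4
    nlinarith
  · have e : (∫ y, e0 y * f0 y) + ρ * c1 + ρ ^ 2 * c2 + ρ ^ 3 * c3 + ρ ^ 4 * c4
        - (∫ y, e0 y * f0 y) - ρ * c1 = ρ ^ 2 * c2 + ρ ^ 3 * c3 + ρ ^ 4 * c4 := by ring
    rw [e]
    have t1 := abs_add_le (ρ ^ 2 * c2 + ρ ^ 3 * c3) (ρ ^ 4 * c4)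
    have t2 := abs_add_le (ρ ^ 2 * c2) (ρ ^ 3 * c3)
    have n3 : ρ ^ 3 * |c3| ≤ ρ ^ 2 * |c3| := mul_le_mul_of_nonneg_right r3 a3
    have n4 : ρ ^ 4 * |c4| ≤ ρ ^ 2 * |c4| := mul_le_mul_of_nonneg_right r4 a4
    nlinarith [mul_nonneg (pow_nonneg h 2) a1]

end Pool.Agent.Helper98.KV
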