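import Pool.Agent.Helper98.KV.FB

/-!
# Project KV, packet F-TAUB (helper33): bounds of the tangent vectors
-/

set_option autoImplicit false

namespace Pool.Agent.Helper98.KV

open Real MeasureTheory Pool.Agent.Helper41.KV Pool.Agent.Helper33.KV
open Pool.Agent.Helper61.KV (addE addP mulPE mulPP derE derP polyP thP sechE intE unifE unifP
  hasDerivAt_th th_sq cda poly_exp)

lemma zE : IsE (fun _ : ℝ => (0 : ℝ)) := by
  have h := smulE 0 QE
  simpa using h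

lemma tauA_pl (α : ℝ) (Z : ℝ → ℝ) (ρ : ℝ) :
    tauA α Z ρ = pl (Lam Q) (fun y => kap α * (y * deriv Z y)) (fun _ => 0) ρ := by
  funext y; unfold tauA pl; ring

lemma tauB_pl (α : ℝ) (Z V2 : ℝ → ℝ) (ρ : ℝ) :
    tauB α Z V2 ρ = pl (deriv Q) (fun y => kap α * deriv Z y)
      (fun y => deriv V2 y - cc α * Z y) ρ := by
  funext y; unfold tauB pl; ring

lemma Th_pl (α : ℝ) (Y : ℝ → ℝ) (ρ : ℝ) :
    Th α Y ρ = pl Q (fun y => kap α * Y y) (fun _ => 0) ρ := by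
  funext y; unfold Th pl; ring

lemma const_pl (f : ℝ → ℝ) (ρ : ℝ) : f = pl f (fun _ => 0) (fun _ => 0) ρ := by
  funext y; unfold pl; ring

lemma yZ_E {Z : ℝ → ℝ} (hZ : IsZ1 Z) (c : ℝ) : IsE (fun y => c * (y * deriv Z y)) :=
  smulE c (mulPE idP (dZ_E hZ))

theorem tauA_E {α : ℝ} {Z : ℝ → ℝ} (hZ : IsZ1 Z) (ρ : ℝ) : IsE (tauA α Z ρ) := by
  rw [tauA_pl]; exact pl_E LamQE (yZ_E hZ _) zE ρ

theorem tauB_E {α : ℝ} {Z V2 : ℝ → ℝ} (hZ : IsZ1 Z) (hV : IsV2 α Z V2) (ρ : ℝ) :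
    IsE (tauB α Z V2 ρ) := by
  rw [tauB_pl]; exact pl_E (derE QE) (smulE _ (dZ_E hZ)) (dV2_E hZ hV) ρ

theorem Th_E {α : ℝ} {Z Y : ℝ → ℝ} (hY : IsY1 Z Y) (ρ : ℝ) : IsE (Th α Y ρ) := by
  rw [Th_pl]; exact pl_E QE (smulE _ hY.isE) zE ρ

lemma fin_up {ρ C D x : ℝ} (hC : x ≤ C * ρ) (hρ : 0 ≤ ρ) (h : C ≤ D) : x ≤ D * ρ :=
  hC.trans (mul_le_mul_of_nonneg_right h hρ)

end Pool.Agent.Helper98.KV

namespace Pool.Agent.Helper33.KV

open Real MeasureTheory Pool.Agent.Helper41.KV Pool.Agent.Helper98.KV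
open Pool.Agent.Helper61.KV (addE addP mulPE mulPP derE derP polyP thP sechE intE unifE unifP
  hasDerivAt_th th_sq cda poly_exp)

theorem thm_TAUB (_hQ : S_QF) (_hE : S_ECL1) (hP : S_PR) (hN : S_IDN) (_hL : S_IDL) : S_TAUB := by
  intro α Z Y V2 hZ hY hV
  refine ⟨fun ρ => ⟨tauA_E hZ ρ, tauB_E hZ hV ρ, Th_E hY ρ⟩, ?_⟩
  obtain ⟨-, n1, n2, -, -, n3, n4, n5, -, -, n6, n7, -⟩ := hN α Z Y V2 hZ hY hV
  have hZ' := dZ_E hZ
  have a1 := yZ_E hZ (kap α)
  have b1 : IsE (fun y => kap α * deriv Z y) := smulE _ hZ'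
  have b2 := dV2_E hZ hV
  have t1 : IsE (fun y => kap α * Y y) := smulE _ hY.isE
  have dQ := derE QE
  obtain ⟨C1, p1, B1⟩ := pl_bd LamQE a1 zE 4 (3 / 4) (by norm_num)
  obtain ⟨C2, p2, B2⟩ := pl_bd dQ b1 b2 4 (3 / 4) (by norm_num)
  obtain ⟨C3, p3, B3⟩ := pl_bd QE t1 zE 4 (3 / 4) (by norm_num)
  obtain ⟨C4, p4, B4⟩ := pl_bd (LopE a1) zE zE 4 (3 / 4) (by norm_num)
  obtain ⟨C5, p5, B5⟩ := pl_bd (LopE b1) (LopE b2) zE 4 (3 / 4) (by norm_num)
  have zP : IsP (fun _ : ℝ => (0 : ℝ)) := cP 0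
  obtain ⟨D1, r1, P1⟩ := pl_pair_bd LamQE a1 zE (E_P QE) (E_P t1) zP
  obtain ⟨D2, r2, P2⟩ := pl_pair_bd dQ b1 b2 (E_P QE) (E_P t1) zP
  have Q3 : IsP (fun y => Q y ^ 3) := powP (E_P QE) 3
  obtain ⟨D3, r3, P3⟩ := pl_pair_bd LamQE a1 zE Q3 zP zP
  obtain ⟨D4, r4, P4⟩ := pl_pair_bd dQ b1 b2 Q3 zP zP
  obtain ⟨D5, r5, P5⟩ := pl_pair_bd LamQE a1 zE (E_P dQ) zP zP
  obtain ⟨D6, r6, P6⟩ := pl_pair_bd dQ b1 b2 (E_P dQ) zP zP
  refine ⟨C1 + C2 + C3 + C4 + C5 + D1 + D2 + D3 + D4 + D5 + D6, 1, one_pos, le_rfl,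
    fun ρ h0 h1 => ⟨fun k hk y => ?_, ?_, ?_, ?_, ?_, ?_, ?_⟩⟩
  · have hex := Real.exp_pos (-(3 / 4) * |y|)
    have e1 := B1 ρ h0 h1 k hk y
    have e2 := B2 ρ h0 h1 k hk y
    have e3 := B3 ρ h0 h1 k hk y
    have e4 := B4 ρ h0 h1 k hk y
    have e5 := B5 ρ h0 h1 k hk y
    have hx : -(3 / 4 * |y|) = -(3 / 4) * |y| := by ring
    rw [hx] at e1 e2 e3 e4 e5
    rw [← tauA_pl] at e1
    rw [← tauB_pl] at e2
    rw [← Th_pl] at e3
    have f4 : (fun x => Lop (tauA α Z ρ) x + 2 * Q x) = fun y => ρ *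
        pl (Lop (fun y => kap α * (y * deriv Z y))) (fun _ => 0) (fun _ => 0) ρ y := by
      funext x
      rw [tauA_pl, Lop_pl LamQE a1 zE]
      unfold pl
      rw [hP.1 x]
      have : Lop (fun _ => (0 : ℝ)) x = 0 := by
        unfold Lop; simp
      rw [this]
      ring
    have f5 : Lop (tauB α Z V2 ρ) = fun y => ρ * pl (Lop (fun y => kap α * deriv Z y))
        (Lop (fun y => deriv V2 y - cc α * Z y)) (fun _ => 0) ρ y := by
      funext x
      rw [tauB_pl, Lop_pl dQ b1 b2]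
      unfold pl
      have : Lop (deriv Q) x = 0 := (_hL α Z Y V2 hZ hY hV).2.2.2.2.2 x
      rw [this]
      ring
    refine ⟨fin_up e1 hex.le (by linarith), fin_up e2 hex.le (by linarith),
      fin_up e3 hex.le (by linarith), ?_, ?_⟩
    · rw [f4, iteratedDeriv_const_mul_field, abs_mul, abs_of_nonneg h0]
      have := mul_le_mul_of_nonneg_left e4 h0
      refine this.trans ?_
      have h2 : 0 ≤ ρ * Real.exp (-(3 / 4) * |y|) := by positivity
      nlinarith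
    · rw [f5, iteratedDeriv_const_mul_field, abs_mul, abs_of_nonneg h0]
      have := mul_le_mul_of_nonneg_left e5 h0
      refine this.trans ?_
      have h2 : 0 ≤ ρ * Real.exp (-(3 / 4) * |y|) := by positivity
      nlinarith
  · have h := (P1 ρ h0 h1).2
    rw [← tauA_pl, ← Th_pl] at h
    have z : (∫ y, Lam Q y * (kap α * Y y)) + ∫ y, kap α * (y * deriv Z y) * Q y = 0 := by
      have e1 : (fun y => Lam Q y * (kap α * Y y)) = fun y => kap α * (Lam Q y * Y y) := by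
        funext y; ring
      have e2 : (fun y => kap α * (y * deriv Z y) * Q y) =
          fun y => kap α * ((y * deriv Z y) * Q y) := by
        funext y; ring
      rw [e1, e2, integral_const_mul, integral_const_mul, ← mul_add, add_comm (∫ y, Lam Q y * Y y),
        n6, mul_zero]
    rw [n1, z, mul_zero, sub_zero, sub_zero] at h
    exact fin_up h (by positivity) (by linarith)
  · have h := (P2 ρ h0 h1).2
    rw [← tauB_pl, ← Th_pl] at h
    have z : (∫ y, deriv Q y * (kap α * Y y)) + ∫ y, kap α * deriv Z y * Q y = 0 := by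
      have e1 : (fun y => deriv Q y * (kap α * Y y)) = fun y => kap α * (deriv Q y * Y y) := by
        funext y; ring
      have e2 : (fun y => kap α * deriv Z y * Q y) =
          fun y => kap α * (deriv Z y * Q y) := by
        funext y; ring
      rw [e1, e2, integral_const_mul, integral_const_mul, ← mul_add,
        add_comm (∫ y, deriv Q y * Y y), n7, mul_zero]
    rw [n2, z, mul_zero, sub_zero, sub_zero] at h
    exact fin_up h (by positivity) (by linarith)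
  · have h := (P3 ρ h0 h1).1
    rw [← tauA_pl, ← const_pl, n5] at h
    exact fin_up h h0 (by linarith)
  · have h := (P4 ρ h0 h1).1
    rw [← tauB_pl, ← const_pl, n4, sub_zero] at h
    exact fin_up h h0 (by linarith)
  · have h := (P5 ρ h0 h1).1
    rw [← tauA_pl, ← const_pl, n3, sub_zero] at h
    exact fin_up h h0 (by linarith)
  · have h := (P6 ρ h0 h1).1
    have e : (∫ y, deriv Q y * deriv Q y) = ∫ y, deriv Q y ^ 2 := by
      congr 1; funext y; ring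
    rw [← tauB_pl, ← const_pl, e] at h
    exact fin_up h h0 (by linarith)

end Pool.Agent.Helper33.KV
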