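import Pool.Agent.Helper98.KV.UX
import Pool.Agent.Helper98.KV.F_TAUB

/-!
# Project KV, packet F-SRC (helper33): the remainders `srcA = O(ρ^2)`, `srcB = O(ρ^3)`
-/

set_option autoImplicit false

namespace Pool.Agent.Helper98.KV

open Real MeasureTheory Pool.Agent.Helper41.KV Pool.Agent.Helper33.KV
open Pool.Agent.Helper61.KV (addE addP mulPE mulPP derE derP polyP thP sechE intE unifE unifP
  hasDerivAt_th th_sq cda poly_exp prod_bd)

/-- cubic remainder of the fourth power -/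
noncomputable def G4 (z w : ℝ → ℝ) (ρ : ℝ) (r : ℝ → ℝ) (y : ℝ) : ℝ :=
  4 * Q y ^ 3 * r y + 6 * Q y ^ 2 * ((w y + ρ * r y) * (2 * z y + ρ * w y + ρ ^ 2 * r y))
    + 4 * Q y * (z y + ρ * w y + ρ ^ 2 * r y) ^ 3 + ρ * (z y + ρ * w y + ρ ^ 2 * r y) ^ 4

lemma G4_eq (z w : ℝ → ℝ) (ρ : ℝ) (r : ℝ → ℝ) (y : ℝ) :
    (Q y + ρ * z y + ρ ^ 2 * w y + ρ ^ 3 * r y) ^ 4 = Q y ^ 4 + ρ * (4 * Q y ^ 3 * z y)
      + ρ ^ 2 * (4 * Q y ^ 3 * w y + 6 * Q y ^ 2 * z y ^ 2) + ρ ^ 3 * G4 z w ρ r y := by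
  unfold G4; ring

lemma G4_UX {ι : Type*} {S : Set ι} {N : ℕ} {z w : ℝ → ℝ} {ρ : ι → ℝ} {r : ι → ℝ → ℝ}
    (hz : IsP z) (hw : IsP w) (hρ : ∀ t ∈ S, |ρ t| ≤ 1) (hr : UX S N (1 / 64) r) :
    UX S N (1 / 16) (fun t => G4 z w (ρ t) (r t)) := by
  have q := UX_constE (S := S) (N := N) (a := 0) (by norm_num) QE
  have z' := UX_constP (S := S) (N := N) (a := 1 / 64) (by norm_num) hz
  have w' := UX_constP (S := S) (N := N) (a := 1 / 64) (by norm_num) hw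
  have rr := UX_scal (N := N) hρ
  have c2 := UX_const (S := S) (N := N) 2
  have c4 := UX_const (S := S) (N := N) 4
  have c6 := UX_const (S := S) (N := N) 6
  have r1 : UX S N (1 / 64) (fun t y => ρ t * r t y) := UX_mono (by norm_num) (UX_mul rr hr)
  have r2 : UX S N (1 / 64) (fun t y => ρ t ^ 2 * r t y) :=
    UX_mono (by norm_num) (UX_mul (UX_pow rr 2) hr)
  have w1 : UX S N (1 / 64) (fun t y => ρ t * w y) := UX_mono (by norm_num) (UX_mul rr w')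
  have z2 : UX S N (1 / 64) (fun t y => 2 * z y) := UX_mono (by norm_num) (UX_mul c2 z')
  have u := UX_add (UX_add z' w1) r2
  have h1 : UX S N (1 / 16) (fun t y => 4 * Q y ^ 3 * r t y) :=
    UX_mono (by norm_num) (UX_mul (UX_mul c4 (UX_pow q 3)) hr)
  have h2 : UX S N (1 / 16) (fun t y => 6 * Q y ^ 2 * ((w y + ρ t * r t y) *
      (2 * z y + ρ t * w y + ρ t ^ 2 * r t y))) :=
    UX_mono (by norm_num) (UX_mul (UX_mul c6 (UX_pow q 2)) (UX_mul (UX_add w' r1)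
      (UX_add (UX_add z2 w1) r2)))
  have h3 : UX S N (1 / 16) (fun t y => 4 * Q y * (z y + ρ t * w y + ρ t ^ 2 * r t y) ^ 3) :=
    UX_mono (by norm_num) (UX_mul (UX_mul c4 q) (UX_pow u 3))
  have h4 : UX S N (1 / 16) (fun t y => ρ t * (z y + ρ t * w y + ρ t ^ 2 * r t y) ^ 4) :=
    UX_mono (by norm_num) (UX_mul rr (UX_pow u 4))
  exact UX_add (UX_add (UX_add h1 h2) h3) h4

/-- sum of an `IsE` list -/
lemma deriv_lin {f0 f1 f2 f3 : ℝ → ℝ} {ρ : ℝ} (h0 : IsE f0) (h1 : IsE f1) (h2 : IsE f2)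
    (h3 : ContDiff ℝ (⊤ : ℕ∞) f3) (y : ℝ) :
    deriv (fun x => f0 x + ρ * f1 x + ρ ^ 2 * f2 x + ρ ^ 3 * f3 x) y =
      deriv f0 y + ρ * deriv f1 y + ρ ^ 2 * deriv f2 y + ρ ^ 3 * deriv f3 y := by
  have d3 : HasDerivAt f3 (deriv f3 y) y := ((h3.differentiable (by simp)) y).hasDerivAt
  exact (((((dE h0 y).add ((dE h1 y).const_mul ρ)).add ((dE h2 y).const_mul (ρ ^ 2))).add
    (d3.const_mul (ρ ^ 3)))).deriv

end Pool.Agent.Helper98.KV

namespace Pool.Agent.Helper33.KV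

open Real MeasureTheory Pool.Agent.Helper41.KV Pool.Agent.Helper98.KV
open Pool.Agent.Helper61.KV (addE addP mulPE mulPP derE derP polyP thP sechE intE unifE unifP
  hasDerivAt_th th_sq cda poly_exp)

/-- the remainders for a general field with the third order expansion; the constant depends only on
`C` and the profiles -/
theorem src_core (hP : S_PR) (hN : S_IDN) (hL : S_IDL) (α C : ℝ) (Z Y V2 : ℝ → ℝ)
    (hZ : IsZ1 Z) (hY : IsY1 Z Y) (hV : IsV2 α Z V2) : ∃ C' : ℝ, ∀ (ρ0 : ℝ) (r0 v : ℝ → ℝ),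
      0 ≤ ρ0 → ρ0 ≤ 1 → ContDiff ℝ (⊤ : ℕ∞) r0 →
      (∀ k ≤ 4, ∀ y, |iteratedDeriv k r0 y| ≤ C * Real.exp (|y| / 64)) →
      (∀ y, v y = Q y + ρ0 * kap α * Z y + ρ0 ^ 2 * V2 y + ρ0 ^ 3 * r0 y) → ∀ y,
      |srcA α Z V2 v ρ0 y| ≤ C' * ρ0 ^ 2 * Real.exp (-|y| / 2) ∧
      |deriv (srcA α Z V2 v ρ0) y| ≤ C' * ρ0 ^ 2 * Real.exp (-|y| / 2) ∧
      |srcB α Z V2 v ρ0 y| ≤ C' * ρ0 ^ 3 * Real.exp (-|y| / 2) ∧
      |deriv (srcB α Z V2 v ρ0) y| ≤ C' * ρ0 ^ 3 * Real.exp (-|y| / 2) := by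
  have hIQ : 0 < IQ := (hN α Z Y V2 hZ hY hV).1
  obtain ⟨ia, -, ic, id', ie, iq⟩ := hL α Z Y V2 hZ hY hV
  set S : Set (ℝ × (ℝ → ℝ)) := {i | 0 ≤ i.1 ∧ i.1 ≤ 1 ∧ ContDiff ℝ (⊤ : ℕ∞) i.2 ∧
    ∀ k ≤ 4, ∀ y, |iteratedDeriv k i.2 y| ≤ C * Real.exp (|y| / 64)} with hS
  have hρ : ∀ t ∈ S, 0 ≤ t.1 ∧ t.1 ≤ 1 := fun t ht => ⟨ht.1, ht.2.1⟩
  have hρ' : ∀ t ∈ S, |t.1| ≤ 1 := fun t ht => by
    rw [abs_of_nonneg (hρ t ht).1]; exact (hρ t ht).2
  have hr : UX S 4 (1 / 64) (fun t => t.2) := ⟨|C|, abs_nonneg _, fun t ht => ⟨ht.2.2.1,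
    fun k hk y => by
      have h := (ht.2.2.2 k hk y).trans
        (mul_le_mul_of_nonneg_right (le_abs_self C) (Real.exp_pos _).le)
      have e : |y| / 64 = 1 / 64 * |y| := by ring
      rwa [e] at h⟩⟩
  -- the coefficient functions
  obtain ⟨z, hz⟩ : ∃ z : ℝ → ℝ, z = fun y => kap α * Z y := ⟨_, rfl⟩
  have zP : IsP z := by rw [hz]; exact smulP _ (Z_P hZ)
  have wP : IsP V2 := V2_P hV
  obtain ⟨a0, ha0'⟩ : ∃ a0 : ℝ → ℝ, a0 = Lam Q := ⟨_, rfl⟩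
  have a0E : IsE a0 := by rw [ha0']; exact LamQE
  obtain ⟨a1, ha1'⟩ : ∃ a1 : ℝ → ℝ, a1 = fun y => kap α * (y * deriv Z y) := ⟨_, rfl⟩
  have a1E : IsE a1 := by rw [ha1']; exact yZ_E hZ _
  obtain ⟨b0, hb0⟩ : ∃ b0 : ℝ → ℝ, b0 = deriv Q := ⟨_, rfl⟩
  have b0E : IsE b0 := by rw [hb0]; exact derE QE
  obtain ⟨b1, hb1⟩ : ∃ b1 : ℝ → ℝ, b1 = fun y => kap α * deriv Z y := ⟨_, rfl⟩
  have b1E : IsE b1 := by rw [hb1]; exact smulE _ (dZ_E hZ)
  obtain ⟨b2, hb2⟩ : ∃ b2 : ℝ → ℝ, b2 = fun y => deriv V2 y - cc α * Z y := ⟨_, rfl⟩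
  have b2E : IsE b2 := by rw [hb2]; exact dV2_E hZ hV
  obtain ⟨g1, hg1⟩ : ∃ g1 : ℝ → ℝ, g1 = fun y => 4 * Q y ^ 3 * z y := ⟨_, rfl⟩
  have g1P : IsP g1 := by rw [hg1]; exact mulPP (smulP 4 (powP (E_P QE) 3)) zP
  obtain ⟨g2, hg2⟩ : ∃ g2 : ℝ → ℝ, g2 = fun y => 4 * Q y ^ 3 * V2 y + 6 * Q y ^ 2 * z y ^ 2 :=
    ⟨_, rfl⟩
  have g2P : IsP g2 := by
    rw [hg2]
    exact addP (mulPP (smulP 4 (powP (E_P QE) 3)) wP)
      (mulPP (smulP 6 (powP (E_P QE) 2)) (powP zP 2))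
  obtain ⟨G, hG⟩ : ∃ G : (ℝ × (ℝ → ℝ)) → ℝ → ℝ, G = fun t => G4 z V2 t.1 t.2 := ⟨_, rfl⟩
  have GU : UX S 4 (1 / 16) G := by rw [hG]; exact G4_UX zP wP hρ' hr
  have hv4 : ∀ (t : ℝ × (ℝ → ℝ)) (v : ℝ → ℝ), (∀ y, v y = Q y + t.1 * kap α * Z y + t.1 ^ 2 * V2 y
      + t.1 ^ 3 * t.2 y) → ∀ y, v y ^ 4 = Q y ^ 4 + t.1 * g1 y + t.1 ^ 2 * g2 y
      + t.1 ^ 3 * G t y := by
    intro t v hv y
    have h2 := G4_eq z V2 t.1 t.2 y
    rw [hv y, hg1, hg2, hG, ← h2, hz]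
    ring
  have rr : UX S 4 0 (fun t _ => t.1) := UX_scal hρ'
  -- the remainders of the products
  obtain ⟨MA, hMA⟩ : ∃ MA : (ℝ × (ℝ → ℝ)) → ℝ → ℝ, MA = fun t y => (5 * (g1 y * a1 y + g2 y * a0 y))
      + (t.1 * (5 * (g2 y * a1 y)) + (t.1 * (5 * G t y)) * (a0 y + t.1 * a1 y)) :=
    ⟨_, rfl⟩
  have MAU : UX S 4 (-(5 / 8)) MA := by
    rw [hMA]
    have t1 : UX S 4 (-(5 / 8)) (fun _ y => 5 * (g1 y * a1 y + g2 y * a0 y)) :=
      UX_constE (by norm_num) (smulE 5 (addE (mulPE g1P a1E) (mulPE g2P a0E)))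
    have t2 : UX S 4 (-(5 / 8)) (fun t y => t.1 * (5 * (g2 y * a1 y))) :=
      UX_mono (by norm_num) (UX_mul rr (UX_constE (a := -(5 / 8)) (by norm_num)
        (smulE 5 (mulPE g2P a1E))))
    have s1 : UX S 4 (-(3 / 4)) (fun _ => a0) := UX_constE (by norm_num) a0E
    have s2 : UX S 4 (-(3 / 4)) (fun t y => t.1 * a1 y) :=
      UX_mono (by norm_num) (UX_mul rr (UX_constE (a := -(3 / 4)) (by norm_num) a1E))
    have t3 : UX S 4 (-(5 / 8)) (fun t y => (t.1 * (5 * G t y)) * (a0 y + t.1 * a1 y)) :=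
      UX_mono (by norm_num) (UX_mul (UX_mul rr (UX_mul (UX_const 5) GU)) (UX_add s1 s2))
    exact UX_add t1 (UX_add t2 t3)
  obtain ⟨MB, hMB⟩ : ∃ MB : (ℝ × (ℝ → ℝ)) → ℝ → ℝ, MB = fun t y => (5 * (g1 y * b2 y + g2 y * b1 y))
      + (t.1 * (5 * (g2 y * b2 y)) + (5 * G t y) *
        ((b0 y + t.1 * b1 y) + t.1 ^ 2 * b2 y)) := ⟨_, rfl⟩
  have MBU : UX S 4 (-(5 / 8)) MB := by
    rw [hMB]
    have t1 : UX S 4 (-(5 / 8)) (fun _ y => 5 * (g1 y * b2 y + g2 y * b1 y)) :=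
      UX_constE (by norm_num) (smulE 5 (addE (mulPE g1P b2E) (mulPE g2P b1E)))
    have t2 : UX S 4 (-(5 / 8)) (fun t y => t.1 * (5 * (g2 y * b2 y))) :=
      UX_mono (by norm_num) (UX_mul rr (UX_constE (a := -(5 / 8)) (by norm_num)
        (smulE 5 (mulPE g2P b2E))))
    have s1 : UX S 4 (-(3 / 4)) (fun _ => b0) := UX_constE (by norm_num) b0E
    have s2 : UX S 4 (-(3 / 4)) (fun t y => t.1 * b1 y) :=
      UX_mono (by norm_num) (UX_mul rr (UX_constE (a := -(3 / 4)) (by norm_num) b1E))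
    have s3 : UX S 4 (-(3 / 4)) (fun t y => t.1 ^ 2 * b2 y) :=
      UX_mono (by norm_num) (UX_mul (UX_pow rr 2) (UX_constE (a := -(3 / 4)) (by norm_num) b2E))
    have t3 : UX S 4 (-(5 / 8)) (fun t y => (5 * G t y) *
        ((b0 y + t.1 * b1 y) + t.1 ^ 2 * b2 y)) :=
      UX_mono (by norm_num) (UX_mul (UX_mul (UX_const 5) GU) (UX_add (UX_add s1 s2) s3))
    exact UX_add t1 (UX_add t2 t3)
  -- the final remainders
  obtain ⟨HA, hHA⟩ : ∃ HA : (ℝ × (ℝ → ℝ)) → ℝ → ℝ, HA = fun t y => deriv (MA t) y +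
      ((2 * α * a1 y + (-(2 * α + 1)) * Lam a1 y) + ((-2) * b2 y
        + (-(5 / 2) * (2 * α + 1)) * a1 y)) := ⟨_, rfl⟩
  have HAU : UX S 3 (-(5 / 8)) HA := by
    rw [hHA]
    exact UX_add (UX_deriv MAU) (UX_constE (by norm_num) (addE (addE (smulE _ a1E) (smulE _ (LamE a1E)))
      (addE (smulE _ b2E) (smulE _ a1E))))
  obtain ⟨HB, hHB⟩ : ∃ HB : (ℝ × (ℝ → ℝ)) → ℝ → ℝ, HB = fun t y => deriv (MB t) y +
      ((4 * α * b2 y + (-(2 * α + 1)) * Lam b2 y) + ((-(2 * α + 1)) * b2 y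
        + (4 / IQ * cc α) * a1 y)) := ⟨_, rfl⟩
  have HBU : UX S 3 (-(5 / 8)) HB := by
    rw [hHB]
    exact UX_add (UX_deriv MBU) (UX_constE (by norm_num) (addE (addE (smulE _ b2E) (smulE _ (LamE b2E)))
      (addE (smulE _ b2E) (smulE _ a1E))))
  have hkm : kap α * (4 / IQ) = 2 * α + 1 := by
    unfold kap; field_simp
  have hzE : IsE (fun _ : ℝ => (0 : ℝ)) := zE
  -- the identity for srcA
  have idA : ∀ t ∈ S, ∀ v : ℝ → ℝ, (∀ y, v y = Q y + t.1 * kap α * Z y + t.1 ^ 2 * V2 y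
      + t.1 ^ 3 * t.2 y) → ∀ y, srcA α Z V2 v t.1 y = t.1 ^ 2 * HA t y := by
    intro t ht v hv y
    obtain ⟨ρ, hρe⟩ : ∃ ρ, ρ = t.1 := ⟨_, rfl⟩
    rw [← hρe]
    have htA : tauA α Z ρ = pl a0 a1 (fun _ => 0) ρ := by rw [tauA_pl, ha0', ha1']
    have h1 : (fun x => deriv (deriv (tauA α Z ρ)) x - tauA α Z ρ x
        + 5 * v x ^ 4 * tauA α Z ρ x) = fun x => -(Lop a0 x) +
        ρ * (-(Lop a1 x) + 5 * (g1 x * a0 x)) + ρ ^ 2 * 0 + ρ ^ 3 * 0 + ρ ^ 2 * MA t x := by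
      funext x
      have hMx : MA t x = (5 * (g1 x * a1 x + g2 x * a0 x))
          + (ρ * (5 * (g2 x * a1 x)) + (ρ * (5 * G t x)) * (a0 x + ρ * a1 x)) := by
        rw [hMA, hρe]
      rw [hv4 t v hv x, htA, pl_deriv a0E a1E hzE, pl_deriv (derE a0E) (derE a1E) (derE hzE), hMx,
        ← hρe]
      unfold pl Lop
      simp only [deriv_const, deriv_const']
      ring
    have hMs : ContDiff ℝ (⊤ : ℕ∞) (MA t) := UX_smooth MAU ht
    have hMd : HasDerivAt (MA t) (deriv (MA t) y) y :=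
      ((hMs.differentiable (by simp)) y).hasDerivAt
    have e1 : IsE (fun x => -(Lop a0 x)) := by
      have h := smulE (-1) (LopE a0E)
      have hh : (fun y => -1 * Lop a0 y) = fun x => -(Lop a0 x) := by funext x; ring
      rwa [hh] at h
    have e2' : IsE (fun x => 5 * (g1 x * a0 x)) := smulE 5 (mulPE g1P a0E)
    have e2 : IsE (fun x => -(Lop a1 x) + 5 * (g1 x * a0 x)) := by
      have h := addE (smulE (-1) (LopE a1E)) e2'
      have hh : (fun y => -1 * Lop a1 y + 5 * (g1 y * a0 y)) =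
        fun x => -(Lop a1 x) + 5 * (g1 x * a0 x) := by funext x; ring
      rwa [hh] at h
    have h2 : deriv (fun x => deriv (deriv (tauA α Z ρ)) x - tauA α Z ρ x
        + 5 * v x ^ 4 * tauA α Z ρ x) y = -(deriv (Lop a0) y) +
        ρ * (-(deriv (Lop a1) y) + deriv (fun x => 5 * (g1 x * a0 x)) y)
        + ρ ^ 2 * deriv (MA t) y := by
      rw [h1]
      have d1 := (dE (LopE a0E) y).neg
      have d2 := ((dE (LopE a1E) y).neg.add (dE e2' y)).const_mul ρ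
      have d3 := hMd.const_mul (ρ ^ 2)
      have d := (((d1.add d2).add_const (ρ ^ 2 * 0)).add_const (ρ ^ 3 * 0)).add d3
      exact d.deriv
    have i0 : deriv (Lop a0) y = -2 * b0 y := by
      have : Lop a0 = fun x => -2 * Q x := by
        rw [ha0']; funext x; exact hP.1 x
      rw [this, hb0]
      exact ((dE QE y).const_mul (-2)).deriv
    have i1 : -(deriv (Lop a1) y) + deriv (fun x => 5 * (g1 x * a0 x)) y - 2 * b1 y
        - (2 * α + 1) * Lam a0 y - (5 / 2) * (2 * α + 1) * a0 y = 0 := by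
      have hh := ic y
      have k1 : deriv (Lop a1) y = kap α * deriv (Lop (fun x => x * deriv Z x)) y := by
        have hyE : IsE (fun x => x * deriv Z x) := mulPE idP (dZ_E hZ)
        have : Lop a1 = fun x => kap α * Lop (fun x => x * deriv Z x) x := by
          funext x
          rw [ha1']
          have q := congrFun (Lop_pl hzE hyE hzE (kap α)) x
          have q1 : pl (fun _ => 0) (fun x => x * deriv Z x) (fun _ => 0) (kap α) =
            fun y => kap α * (y * deriv Z y) := by funext y; unfold pl; ring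
          rw [q1] at q
          rw [q]
          unfold pl
          have : Lop (fun _ => (0 : ℝ)) x = 0 := by
            unfold Lop; simp
          rw [this]; ring
        rw [this]
        exact ((dE (LopE hyE) y).const_mul (kap α)).deriv
      have k2 : deriv (fun x => 5 * (g1 x * a0 x)) y =
          kap α * deriv (fun x => 20 * Q x ^ 3 * Z x * Lam Q x) y := by
        have hyE : IsE (fun x => 20 * Q x ^ 3 * Z x * Lam Q x) :=
          mulPE (mulPP (smulP 20 (powP (E_P QE) 3)) (Z_P hZ)) LamQE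
        have : (fun x => 5 * (g1 x * a0 x)) =
            fun x => kap α * (20 * Q x ^ 3 * Z x * Lam Q x) := by
          funext x; rw [hg1, ha0', hz]; ring
        rw [this]
        exact ((dE hyE y).const_mul (kap α)).deriv
      rw [k1, k2, hb1, ha0', ← hkm]
      linear_combination (kap α) * hh
    have hsrc : srcA α Z V2 v ρ y = (2 * α * ρ ^ 2 * kap α * (y * deriv Z y)
        + deriv (fun x => deriv (deriv (tauA α Z ρ)) x - tauA α Z ρ x
          + 5 * v x ^ 4 * tauA α Z ρ x) y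
        - (2 * α + 1) * ρ * Lam (tauA α Z ρ) y)
        - 2 * tauB α Z V2 ρ y - (5 / 2) * (2 * α + 1) * ρ * tauA α Z ρ y := rfl
    have htB : tauB α Z V2 ρ y = b0 y + ρ * b1 y + ρ ^ 2 * b2 y := by
      rw [tauB_pl, hb0, hb1, hb2]; rfl
    have hLA : Lam (tauA α Z ρ) y = Lam a0 y + ρ * Lam a1 y := by
      rw [htA, Lam_pl a0E a1E hzE]
      unfold pl
      have : Lam (fun _ => (0 : ℝ)) y = 0 := by unfold Lam; simp
      rw [this]; ring
    have htAy : tauA α Z ρ y = a0 y + ρ * a1 y := by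
      rw [htA]; unfold pl; ring
    have ha1y : kap α * (y * deriv Z y) = a1 y := by rw [ha1']
    rw [hsrc, h2, htB, hLA, htAy, hHA, i0]
    linear_combination ρ * i1 + 2 * α * ρ ^ 2 * ha1y
  -- the identity for srcB
  have idB : ∀ t ∈ S, ∀ v : ℝ → ℝ, (∀ y, v y = Q y + t.1 * kap α * Z y + t.1 ^ 2 * V2 y
      + t.1 ^ 3 * t.2 y) → ∀ y, srcB α Z V2 v t.1 y = t.1 ^ 3 * HB t y := by
    intro t ht v hv y
    obtain ⟨ρ, hρe⟩ : ∃ ρ, ρ = t.1 := ⟨_, rfl⟩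
    rw [← hρe]
    have htB : tauB α Z V2 ρ = pl b0 b1 b2 ρ := by rw [tauB_pl, hb0, hb1, hb2]
    have h1 : (fun x => deriv (deriv (tauB α Z V2 ρ)) x - tauB α Z V2 ρ x
        + 5 * v x ^ 4 * tauB α Z V2 ρ x) = fun x => -(Lop b0 x) +
        ρ * (-(Lop b1 x) + 5 * (g1 x * b0 x)) + ρ ^ 2 * (-(Lop b2 x) + 5 * (g1 x * b1 x)
          + 5 * (g2 x * b0 x)) + ρ ^ 3 * MB t x := by
      funext x
      have hMx : MB t x = (5 * (g1 x * b2 x + g2 x * b1 x))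
          + (ρ * (5 * (g2 x * b2 x)) + (5 * G t x) *
            ((b0 x + ρ * b1 x) + ρ ^ 2 * b2 x)) := by
        rw [hMB, hρe]
      rw [hv4 t v hv x, htB, pl_deriv b0E b1E b2E, pl_deriv (derE b0E) (derE b1E) (derE b2E), hMx,
        ← hρe]
      unfold pl Lop
      ring
    have hMs : ContDiff ℝ (⊤ : ℕ∞) (MB t) := UX_smooth MBU ht
    have hMd : HasDerivAt (MB t) (deriv (MB t) y) y :=
      ((hMs.differentiable (by simp)) y).hasDerivAt
    have e2 : IsE (fun x => 5 * (g1 x * b0 x)) := smulE 5 (mulPE g1P b0E)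
    have e3 : IsE (fun x => 5 * (g1 x * b1 x)) := smulE 5 (mulPE g1P b1E)
    have e4 : IsE (fun x => 5 * (g2 x * b0 x)) := smulE 5 (mulPE g2P b0E)
    have h2 : deriv (fun x => deriv (deriv (tauB α Z V2 ρ)) x - tauB α Z V2 ρ x
        + 5 * v x ^ 4 * tauB α Z V2 ρ x) y = -(deriv (Lop b0) y) +
        ρ * (-(deriv (Lop b1) y) + deriv (fun x => 5 * (g1 x * b0 x)) y)
        + ρ ^ 2 * (-(deriv (Lop b2) y) + deriv (fun x => 5 * (g1 x * b1 x)) y
          + deriv (fun x => 5 * (g2 x * b0 x)) y)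
        + ρ ^ 3 * deriv (MB t) y := by
      rw [h1]
      have d1 := (dE (LopE b0E) y).neg
      have d2 := ((dE (LopE b1E) y).neg.add (dE e2 y)).const_mul ρ
      have d3 := (((dE (LopE b2E) y).neg.add (dE e3 y)).add (dE e4 y)).const_mul (ρ ^ 2)
      have d4 := hMd.const_mul (ρ ^ 3)
      exact (((d1.add d2).add d3).add d4).deriv
    have i0 : deriv (Lop b0) y = 0 := by
      have : Lop b0 = fun _ => (0 : ℝ) := by
        rw [hb0]; funext x; exact iq x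
      rw [this]
      exact deriv_const y 0
    have i1 : -(deriv (Lop b1) y) + deriv (fun x => 5 * (g1 x * b0 x)) y
        - (2 * α + 1) * Lam b0 y - (2 * α + 1) * b0 y = 0 := by
      have hh := id' y
      have k1 : deriv (Lop b1) y = kap α * deriv (Lop (deriv Z)) y := by
        have hyE : IsE (deriv Z) := dZ_E hZ
        have : Lop b1 = fun x => kap α * Lop (deriv Z) x := by
          funext x
          rw [hb1]
          have q := congrFun (Lop_pl hzE hyE hzE (kap α)) x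
          have q1 : pl (fun _ => 0) (deriv Z) (fun _ => 0) (kap α) =
            fun y => kap α * deriv Z y := by funext y; unfold pl; ring
          rw [q1] at q
          rw [q]
          unfold pl
          have : Lop (fun _ => (0 : ℝ)) x = 0 := by
            unfold Lop; simp
          rw [this]; ring
        rw [this]
        exact ((dE (LopE hyE) y).const_mul (kap α)).deriv
      have k2 : (fun x => 5 * (g1 x * b0 x)) = fun x => 20 * Q x ^ 3 * (kap α * Z x) * deriv Q x := by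
        funext x; rw [hg1, hb0, hz]; ring
      rw [k1, k2, hb0]
      linear_combination hh
    have i2 : 2 * α * b1 y - deriv (Lop b2) y + deriv (fun x => 5 * (g1 x * b1 x)) y
        + deriv (fun x => 5 * (g2 x * b0 x)) y
        - (2 * α + 1) * Lam b1 y - (2 * α + 1) * b1 y + (4 / IQ) * cc α * a0 y = 0 := by
      have hh := ie y
      have k2 : (fun x => 5 * (g1 x * b1 x)) = fun x => 20 * Q x ^ 3 * kap α ^ 2 * Z x * deriv Z x := by
        funext x; rw [hg1, hb1, hz]; ring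
      have k3 : (fun x => 5 * (g2 x * b0 x)) =
          fun x => (20 * Q x ^ 3 * V2 x + 30 * Q x ^ 2 * (kap α * Z x) ^ 2) * deriv Q x := by
        funext x; rw [hg2, hb0, hz]; ring
      have k4 : Lam b1 y = kap α * Lam (deriv Z) y := by
        have : deriv b1 y = kap α * deriv (deriv Z) y := by
          rw [hb1]; exact ((dE (dZ_E hZ) y).const_mul (kap α)).deriv
        unfold Lam
        rw [this, hb1]; ring
      have k5 : b1 y = kap α * deriv Z y := by rw [hb1]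
      rw [k2, k3, k4, k5, ha0', hb2]
      linear_combination hh
    have hsrc : srcB α Z V2 v ρ y = ((2 * α * ρ ^ 2 * kap α * deriv Z y
        + 4 * α * ρ ^ 3 * (deriv V2 y - cc α * Z y))
        + deriv (fun x => deriv (deriv (tauB α Z V2 ρ)) x - tauB α Z V2 ρ x
          + 5 * v x ^ 4 * tauB α Z V2 ρ x) y
        - (2 * α + 1) * ρ * Lam (tauB α Z V2 ρ) y)
        - (2 * α + 1) * ρ * tauB α Z V2 ρ y + (4 / IQ) * cc α * ρ ^ 2 * tauA α Z ρ y := rfl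
    have hLB : Lam (tauB α Z V2 ρ) y = Lam b0 y + ρ * Lam b1 y + ρ ^ 2 * Lam b2 y := by
      rw [htB, Lam_pl b0E b1E b2E]; rfl
    have htBy : tauB α Z V2 ρ y = b0 y + ρ * b1 y + ρ ^ 2 * b2 y := by
      rw [htB]; rfl
    have htAy : tauA α Z ρ y = a0 y + ρ * a1 y := by
      rw [tauA_pl, ha0', ha1']; unfold pl; ring
    have hb1y : kap α * deriv Z y = b1 y := by rw [hb1]
    have hb2y : deriv V2 y - cc α * Z y = b2 y := by rw [hb2]
    rw [hsrc, h2, htBy, hLB, htAy, hHB, i0, hb2y]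
    linear_combination ρ * i1 + ρ ^ 2 * i2 + 2 * α * ρ ^ 2 * hb1y
  -- conclusion
  obtain ⟨CA, cA0, hCA⟩ := UX_mono (show -(5 / 8 : ℝ) ≤ -(1 / 2) by norm_num) HAU
  obtain ⟨CB, cB0, hCB⟩ := UX_mono (show -(5 / 8 : ℝ) ≤ -(1 / 2) by norm_num) HBU
  refine ⟨CA + CB, fun ρ0 r0 v p0 p1 hr0 hr1 hv y => ?_⟩
  have ht : ((ρ0, r0) : ℝ × (ℝ → ℝ)) ∈ S := ⟨p0, p1, hr0, hr1⟩
  have hex := Real.exp_pos (-|y| / 2)
  have hxe : -(1 / 2) * |y| = -|y| / 2 := by ring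
  have fA : srcA α Z V2 v ρ0 = fun y => ρ0 ^ 2 * HA (ρ0, r0) y := by
    funext x; exact idA (ρ0, r0) ht v hv x
  have fB : srcB α Z V2 v ρ0 = fun y => ρ0 ^ 3 * HB (ρ0, r0) y := by
    funext x; exact idB (ρ0, r0) ht v hv x
  have p2 : 0 ≤ ρ0 ^ 2 := pow_nonneg p0 2
  have p3 : 0 ≤ ρ0 ^ 3 := pow_nonneg p0 3
  have A0 := (hCA _ ht).2 0 (by norm_num) y
  have A1 := (hCA _ ht).2 1 (by norm_num) y
  have B0 := (hCB _ ht).2 0 (by norm_num) y
  have B1 := (hCB _ ht).2 1 (by norm_num) y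
  rw [iteratedDeriv_zero, hxe] at A0 B0
  rw [iteratedDeriv_one, hxe] at A1 B1
  have gen : ∀ (s x c : ℝ), 0 ≤ s → |x| ≤ c * Real.exp (-|y| / 2) → c ≤ CA + CB →
      |s * x| ≤ (CA + CB) * s * Real.exp (-|y| / 2) := by
    intro s x c hs hx hc
    rw [abs_mul, abs_of_nonneg hs]
    have h1 : |x| ≤ (CA + CB) * Real.exp (-|y| / 2) :=
      hx.trans (mul_le_mul_of_nonneg_right hc hex.le)
    calc s * |x| ≤ s * ((CA + CB) * Real.exp (-|y| / 2)) := mul_le_mul_of_nonneg_left h1 hs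
      _ = _ := by ring
  have dA : deriv (fun y => ρ0 ^ 2 * HA (ρ0, r0) y) y = ρ0 ^ 2 * deriv (HA (ρ0, r0)) y := by
    rw [deriv_const_mul_field]
  have dB : deriv (fun y => ρ0 ^ 3 * HB (ρ0, r0) y) y = ρ0 ^ 3 * deriv (HB (ρ0, r0)) y := by
    rw [deriv_const_mul_field]
  refine ⟨?_, ?_, ?_, ?_⟩
  · rw [fA]; exact gen _ _ _ p2 A0 (by linarith)
  · rw [fA, dA]; exact gen _ _ _ p2 A1 (by linarith)
  · rw [fB]; exact gen _ _ _ p3 B0 (by linarith)
  · rw [fB, dB]; exact gen _ _ _ p3 B1 (by linarith)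

theorem thm_SRC (_hQ : S_QF) (_hE : S_ECL1) (hP : S_PR) (hC : S_CURVE) (hN : S_IDN) (hL : S_IDL) :
    S_SRC := by
  intro α K C n Z Y V2 h0 h1 hZ hY hV
  obtain ⟨hc1, hc2, -⟩ := hC α h0 h1
  obtain ⟨C', hC'⟩ := src_core hP hN hL α C Z Y V2 hZ hY hV
  refine ⟨C', fun N0 T W Wt r r' hT hρT hB t ht y => ?_⟩
  exact hC' (rho α t) (r t) (inn α W t) (hc1 t ht.1).2.2.1.le
    ((hc2 t T ht.1 ht.2).2.2.trans hρT) (hB.rbd t ht).1 (hB.rbd t ht).2 (hB.expn t ht) y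

end Pool.Agent.Helper33.KV
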