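import Pool.Agent.Helper98.KV.UC

/-!
# Project KV, packet F-WEAK (helper33): time derivative of a pairing in inner variables
-/

set_option autoImplicit false

namespace Pool.Agent.Helper98.KV

open Real MeasureTheory Filter Topology Pool.Agent.Helper41.KV Pool.Agent.Helper33.KV
open Pool.Agent.Helper61.KV (addE addP mulPE mulPP derE derP polyP thP sechE intE unifE unifP
  hasDerivAt_th th_sq cda poly_exp prod_bd)

/-- differentiation under the integral sign, one-sided version on a convex set -/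
lemma deriv_int {s : Set ℝ} (hs : Convex ℝ s) {F F' : ℝ → ℝ → ℝ} {B : ℝ → ℝ} {t : ℝ} (ht : t ∈ s)
    (hF : ∀ τ ∈ s, Integrable (F τ)) (hB : Integrable B)
    (hbd : ∀ τ ∈ s, ∀ x, |F' τ x| ≤ B x)
    (hd : ∀ τ ∈ s, ∀ x, HasDerivWithinAt (fun τ => F τ x) (F' τ x) s τ) :
    HasDerivWithinAt (fun τ => ∫ x, F τ x) (∫ x, F' t x) s t := by
  rw [hasDerivWithinAt_iff_tendsto_slope]
  have hsl : ∀ τ ∈ s \ {t}, slope (fun τ => ∫ x, F τ x) t τ = ∫ x, slope (fun τ => F τ x) t τ := by
    intro τ hτ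
    simp only [slope, vsub_eq_sub, smul_eq_mul]
    rw [integral_const_mul, integral_sub (hF τ hτ.1) (hF t ht)]
  have hev : (fun τ => ∫ x, slope (fun τ => F τ x) t τ) =ᶠ[𝓝[s \ {t}] t]
      slope (fun τ => ∫ x, F τ x) t := by
    filter_upwards [self_mem_nhdsWithin] with τ hτ
    exact (hsl τ hτ).symm
  refine Tendsto.congr' hev ?_
  refine tendsto_integral_filter_of_dominated_convergence B ?_ ?_ hB ?_
  · filter_upwards [self_mem_nhdsWithin] with τ hτ
    have h := ((hF τ hτ.1).sub (hF t ht)).const_mul ((τ - t)⁻¹)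
    have he : (fun x => slope (fun τ => F τ x) t τ) = fun x => (τ - t)⁻¹ * (F τ x - F t x) := by
      funext x
      simp only [slope, vsub_eq_sub, smul_eq_mul]
    rw [he]
    exact h.aestronglyMeasurable
  · filter_upwards [self_mem_nhdsWithin] with τ hτ
    refine Eventually.of_forall fun x => ?_
    have h := hs.norm_image_sub_le_of_norm_hasDerivWithin_le (fun y hy => hd y hy x)
      (fun y hy => by rw [Real.norm_eq_abs]; exact hbd y hy x) ht hτ.1
    simp only [slope, vsub_eq_sub, smul_eq_mul]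
    rw [norm_mul, norm_inv]
    have hne : 0 < ‖τ - t‖ := norm_pos_iff.2 (sub_ne_zero.2 hτ.2)
    rw [inv_mul_le_iff₀ hne, mul_comm]
    exact h
  · refine Eventually.of_forall fun x => ?_
    have h := (hd t ht x)
    rwa [hasDerivWithinAt_iff_tendsto_slope] at h

/-- a smooth function in `H^1` is bounded -/
lemma sup_bd {f : ℝ → ℝ} (hf : ContDiff ℝ (⊤ : ℕ∞) f) (h0 : MemLp f 2) (h1 : MemLp (deriv f) 2)
    (x : ℝ) : f x ^ 2 ≤ 2 * (∫ y, f y ^ 2) + ∫ y, deriv f y ^ 2 := by
  have i0 : Integrable (fun y => f y ^ 2) := h0.integrable_sq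
  have i1 : Integrable (fun y => deriv f y ^ 2) := h1.integrable_sq
  have cf : Continuous f := hf.continuous
  have cd : Continuous (deriv f) := (contDiff_infty_iff_deriv.mp hf).2.continuous
  have hle : ∀ y ∈ Set.Icc x (x + 1), f x ^ 2 ≤ f y ^ 2 + ∫ z, (f z ^ 2 + deriv f z ^ 2) := by
    intro y hy
    have hftc : ∫ z in x..y, 2 * f z * deriv f z = f y ^ 2 - f x ^ 2 := by
      apply intervalIntegral.integral_eq_sub_of_hasDerivAt
      · intro z _
        have hz : HasDerivAt f (deriv f z) z := ((hf.differentiable (by simp)) z).hasDerivAt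
        have hz2 := hz.fun_pow 2
        simpa using hz2
      · exact ((continuous_const.mul cf).mul cd).intervalIntegrable _ _
    have hb : -(∫ z in x..y, 2 * f z * deriv f z) ≤ ∫ z in x..y, (f z ^ 2 + deriv f z ^ 2) := by
      rw [← intervalIntegral.integral_neg]
      apply intervalIntegral.integral_mono_on hy.1
      · exact ((continuous_const.mul cf).mul cd).neg.intervalIntegrable _ _
      · exact ((cf.pow 2).add (cd.pow 2)).intervalIntegrable _ _
      · intro z _
        nlinarith [sq_nonneg (f z + deriv f z)]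
    have hc : ∫ z in x..y, (f z ^ 2 + deriv f z ^ 2) ≤ ∫ z, (f z ^ 2 + deriv f z ^ 2) := by
      rw [intervalIntegral.integral_of_le hy.1]
      exact setIntegral_le_integral (i0.add i1) (Eventually.of_forall fun z => by positivity)
    linarith
  have h2 : ∫ _y in x..(x + 1), f x ^ 2 ≤
      ∫ y in x..(x + 1), (f y ^ 2 + ∫ z, (f z ^ 2 + deriv f z ^ 2)) := by
    apply intervalIntegral.integral_mono_on (by linarith)
    · exact intervalIntegrable_const
    · exact ((cf.pow 2).add continuous_const).intervalIntegrable _ _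
    · intro y hy; exact hle y hy
  have cf2 : Continuous (fun y => f y ^ 2) := cf.pow 2
  rw [intervalIntegral.integral_add (cf2.intervalIntegrable _ _) intervalIntegrable_const] at h2
  simp only [intervalIntegral.integral_const, add_sub_cancel_left, one_smul] at h2
  have h3 : ∫ y in x..(x + 1), f y ^ 2 ≤ ∫ y, f y ^ 2 := by
    rw [intervalIntegral.integral_of_le (by linarith)]
    exact setIntegral_le_integral i0 (Eventually.of_forall fun z => by positivity)
  rw [integral_add i0 i1] at h2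
  linarith

/-- uniform sup bound of an `HInf` field -/
lemma HInf_bd {u : ℝ → ℝ → ℝ} {t1 t2 : ℝ} (h : HInf u t1 t2) (k : ℕ) :
    ∃ M, 0 ≤ M ∧ ∀ t ∈ Set.Icc t1 t2, ∀ x, |iteratedDeriv k (u t) x| ≤ M := by
  obtain ⟨C0, h0⟩ := h.bound k
  obtain ⟨C1, h1⟩ := h.bound (k + 1)
  refine ⟨Real.sqrt (2 * |C0| + |C1|), Real.sqrt_nonneg _, fun t ht x => ?_⟩
  have hs : ContDiff ℝ (⊤ : ℕ∞) (iteratedDeriv k (u t)) := by
    rw [iteratedDeriv_eq_iterate]
    exact ContDiff.iterate_deriv k (h.smooth t ht)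
  have e1 : deriv (iteratedDeriv k (u t)) = iteratedDeriv (k + 1) (u t) := by
    rw [iteratedDeriv_succ]
  have hb := sup_bd hs (h.memLp k t ht) (by rw [e1]; exact h.memLp (k + 1) t ht) x
  rw [e1] at hb
  apply Real.abs_le_sqrt
  have a1 := (h0 t ht).trans (le_abs_self _)
  have a2 := (h1 t ht).trans (le_abs_self _)
  linarith

lemma int_exp_abs {c : ℝ} (hc : 0 < c) : Integrable (fun x : ℝ => Real.exp (-(c * |x|))) := by
  obtain ⟨K, K0, hK⟩ := poly_exp 2 c hc
  have hint : Integrable (fun x : ℝ => K * (1 + x ^ 2)⁻¹) := integrable_inv_one_add_sq.const_mul _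
  refine hint.mono' (by fun_prop) (Eventually.of_forall fun y => ?_)
  rw [Real.norm_eq_abs, abs_of_pos (Real.exp_pos _), Real.exp_neg]
  have h1 := hK |y| (abs_nonneg y)
  have h2 : 1 + y ^ 2 ≤ (1 + |y|) ^ 2 := by
    rw [← sq_abs y]; nlinarith [abs_nonneg y]
  have h3 : 0 < 1 + y ^ 2 := by positivity
  have h4 : 0 < Real.exp (c * |y|) := Real.exp_pos _
  rw [← div_eq_mul_inv, ← one_div, div_le_div_iff₀ h4 h3]
  linarith

/-- change of variables -/
lemma chg (s l : ℝ) (hl : 0 < l) (h : ℝ → ℝ) : (∫ y, h (s + l * y)) = (1 / l) * ∫ x, h x := by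
  have h1 := Measure.integral_comp_mul_left (fun z => h (s + z)) l
  rw [h1, abs_of_pos (inv_pos.2 hl), smul_eq_mul, one_div]
  congr 1
  exact integral_add_left_eq_self h s

/-- the pairing in both sets of variables -/
lemma pair_outr (α : ℝ) (u : ℝ → ℝ → ℝ) (f : ℝ → ℝ) (τ : ℝ) (hl : 0 < lam α τ) :
    (∫ y, inn α u τ y * f y) = ∫ x, u τ x * outr α (fun _ => f) τ x := by
  have h := chg (sig α τ) (lam α τ) hl (fun x => Real.sqrt (lam α τ) * u τ x *
    f ((x - sig α τ) / lam α τ))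
  have e1 : (fun y => Real.sqrt (lam α τ) * u τ (sig α τ + lam α τ * y) *
      f ((sig α τ + lam α τ * y - sig α τ) / lam α τ)) = fun y => inn α u τ y * f y := by
    funext y
    have : (sig α τ + lam α τ * y - sig α τ) / lam α τ = y := by field_simp; ring
    rw [this]; rfl
  rw [e1] at h
  rw [h, ← integral_const_mul]
  congr 1
  funext x
  unfold outr
  have hs : Real.sqrt (lam α τ) ≠ 0 := (Real.sqrt_pos.2 hl).ne'
  have hs2 : Real.sqrt (lam α τ) * Real.sqrt (lam α τ) = lam α τ := Real.mul_self_sqrt hl.le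
  have : 1 / lam α τ * Real.sqrt (lam α τ) = 1 / Real.sqrt (lam α τ) := by
    rw [eq_div_iff hs, mul_assoc, hs2]; field_simp
  calc 1 / lam α τ * (Real.sqrt (lam α τ) * u τ x * f ((x - sig α τ) / lam α τ))
      = (1 / lam α τ * Real.sqrt (lam α τ)) * (u τ x * f ((x - sig α τ) / lam α τ)) := by ring
    _ = _ := by rw [this]; ring

/-- time derivative of the rescaled profile -/
lemma outr_dt (hC : S_CURVE) {α : ℝ} (h0 : 0 < α) (h1 : α < 1) {f : ℝ → ℝ} (hf : IsP f) (x : ℝ)
    {τ : ℝ} (hτ : 0 < τ) : HasDerivAt (fun τ => outr α (fun _ => f) τ x)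
      (-(1 / lam α τ ^ 3) * outr α (fun _ y => deriv f y + (2 * α + 1) * rho α τ * Lam f y) τ x)
      τ := by
  obtain ⟨hc, -, -⟩ := hC α h0 h1
  obtain ⟨-, hl, -, -, -, ds, dl, -⟩ := hc τ hτ
  have hs : 0 < Real.sqrt (lam α τ) := Real.sqrt_pos.2 hl
  have hs2 : Real.sqrt (lam α τ) ^ 2 = lam α τ := Real.sq_sqrt hl.le
  have d1 := dl.sqrt hl.ne'
  have d2 := (hasDerivAt_const τ (1 : ℝ)).div d1 hs.ne'
  have d3 := ((hasDerivAt_const τ x).sub ds).div dl hl.ne'
  have d4 := (dP hf ((x - sig α τ) / lam α τ)).comp τ d3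
  have d5 := d2.mul d4
  have e : (fun τ => outr α (fun _ => f) τ x) = ((fun _ => (1 : ℝ)) / fun y => Real.sqrt (lam α y)) *
      (f ∘ (((fun _ => x) - sig α) / lam α)) := by
    funext s; rfl
  rw [e]
  refine d5.congr_deriv ?_
  unfold outr Lam
  simp only [Function.comp_apply, Pi.sub_apply, Pi.div_apply]
  set q := Real.sqrt (lam α τ) with hq
  set y := (x - sig α τ) / lam α τ with hy
  have hx : x - sig α τ = y * lam α τ := by rw [hy]; field_simp
  rw [hx, ← hs2]
  have hq0 : q ≠ 0 := hs.ne'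
  field_simp
  ring

/-- uniform bound of the rescaled profiles -/
lemma outr_bd (hC : S_CURVE) {α : ℝ} (h0 : 0 < α) (h1 : α < 1) {f : ℝ → ℝ} (hf : IsE f)
    {t1 t2 : ℝ} (ht1 : 0 < t1) (_ht : t1 ≤ t2) : ∃ c D : ℝ, 0 < c ∧ 0 ≤ D ∧
      c = 1 / (2 * lam α t2) ∧
      ∀ τ ∈ Set.Icc t1 t2, ∀ x, |outr α (fun _ => f) τ x| ≤ D * Real.exp (-(c * |x|)) := by
  obtain ⟨hc, hm, -⟩ := hC α h0 h1
  have ht2 : 0 < t2 := lt_of_lt_of_le ht1 _ht
  have hl1 := (hc t1 ht1).2.1
  have hl2 := (hc t2 ht2).2.1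
  obtain ⟨E, hE⟩ := hf.2 0 (1 / 2) (by norm_num)
  refine ⟨1 / (2 * lam α t2), (1 / Real.sqrt (lam α t1)) * (|E| *
    Real.exp (sig α t2 / (2 * lam α t1))), by positivity, by positivity, rfl, fun τ hτ x => ?_⟩
  have hτ0 : 0 < τ := lt_of_lt_of_le ht1 hτ.1
  have hl := (hc τ hτ0).2.1
  have hs := (hc τ hτ0).1
  have m1 := hm t1 τ ht1 hτ.1
  have m2 := hm τ t2 hτ0 hτ.2
  unfold outr
  rw [abs_mul, abs_of_pos (by positivity)]
  have hf1 := hE ((x - sig α τ) / lam α τ)
  rw [iteratedDeriv_zero] at hf1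
  have hex : Real.exp (-(1 / 2 * |(x - sig α τ) / lam α τ|)) ≤
      Real.exp (sig α t2 / (2 * lam α t1)) * Real.exp (-(1 / (2 * lam α t2) * |x|)) := by
    rw [← Real.exp_add]
    apply Real.exp_le_exp.2
    rw [abs_div, abs_of_pos hl]
    have k1 : |x| - sig α τ ≤ |x - sig α τ| := by
      have := abs_sub_abs_le_abs_sub x (sig α τ)
      rwa [abs_of_pos hs] at this
    have k2 : (|x| - sig α τ) / lam α τ ≤ |x - sig α τ| / lam α τ :=
      div_le_div_of_nonneg_right k1 hl.le
    have k3 : |x| / lam α t2 ≤ |x| / lam α τ :=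
      div_le_div_of_nonneg_left (abs_nonneg x) hl m2.2.1
    have k4 : sig α τ / lam α τ ≤ sig α t2 / lam α t1 :=
      div_le_div₀ ((hc t2 ht2).1.le) m2.1 hl1 m1.2.1
    rw [sub_div] at k2
    have e1 : sig α t2 / (2 * lam α t1) = 1 / 2 * (sig α t2 / lam α t1) := by
      field_simp
    have e2 : 1 / (2 * lam α t2) * |x| = 1 / 2 * (|x| / lam α t2) := by
      field_simp
    rw [e1, e2]
    linarith
  have hq : 1 / Real.sqrt (lam α τ) ≤ 1 / Real.sqrt (lam α t1) := by
    apply one_div_le_one_div_of_le (Real.sqrt_pos.2 hl1)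
    exact Real.sqrt_le_sqrt m1.2.1
  have hf2 : |f ((x - sig α τ) / lam α τ)| ≤ |E| * (Real.exp (sig α t2 / (2 * lam α t1)) *
      Real.exp (-(1 / (2 * lam α t2) * |x|))) :=
    hf1.trans ((mul_le_mul_of_nonneg_right (le_abs_self E) (Real.exp_pos _).le).trans
      (mul_le_mul_of_nonneg_left hex (abs_nonneg E)))
  calc 1 / Real.sqrt (lam α τ) * |f ((x - sig α τ) / lam α τ)|
      ≤ 1 / Real.sqrt (lam α t1) * (|E| * (Real.exp (sig α t2 / (2 * lam α t1)) *
      Real.exp (-(1 / (2 * lam α t2) * |x|)))) :=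
        mul_le_mul hq hf2 (abs_nonneg _) (by positivity)
    _ = _ := by ring

end Pool.Agent.Helper98.KV

namespace Pool.Agent.Helper33.KV

open Real MeasureTheory Pool.Agent.Helper41.KV Pool.Agent.Helper98.KV
open Pool.Agent.Helper61.KV (addE addP mulPE mulPP derE derP polyP thP sechE intE unifE unifP
  hasDerivAt_th th_sq cda poly_exp)

theorem thm_WEAK (_hE : S_ECL1) (hC : S_CURVE) : S_WEAK := by
  intro α h0 h1 u w t1 t2 ht1 ht12 hu hw hd f hf t ht
  obtain ⟨hc, hm, -⟩ := hC α h0 h1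
  have ht2 : 0 < t2 := ht1.trans ht12
  have hl1 := (hc t1 ht1).2.1
  obtain ⟨Mu, Mu0, hMu⟩ := HInf_bd hu 0
  obtain ⟨Mw, Mw0, hMw⟩ := HInf_bd hw 0
  have fP : IsP f := E_P hf
  have f'E := derE hf
  have LE := LamE hf
  obtain ⟨c, D0, c0, D00, hcc, hD0⟩ := outr_bd hC h0 h1 hf ht1 ht12.le
  obtain ⟨c', D1, -, D10, hc', hD1⟩ := outr_bd hC h0 h1 f'E ht1 ht12.le
  obtain ⟨c'', D2, -, D20, hc'', hD2⟩ := outr_bd hC h0 h1 LE ht1 ht12.le
  have ec : c' = c := by rw [hc', hcc]
  have ec2 : c'' = c := by rw [hc'', hcc]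
  subst ec ec2
  have hr2 := (hc t2 ht2).2.2.1
  -- continuity in x
  have cont_outr : ∀ (g : ℝ → ℝ) (τ : ℝ), Continuous g → Continuous (fun x =>
      outr α (fun _ => g) τ x) := by
    intro g τ hg
    unfold outr
    exact continuous_const.mul (hg.comp ((continuous_id.sub continuous_const).div_const _))
  have cu : ∀ τ ∈ Set.Icc t1 t2, Continuous (u τ) := fun τ hτ => (hu.smooth τ hτ).continuous
  have cw : ∀ τ ∈ Set.Icc t1 t2, Continuous (w τ) := fun τ hτ => (hw.smooth τ hτ).continuous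
  have hexp := int_exp_abs c0
  -- the integrand and its derivative
  set F : ℝ → ℝ → ℝ := fun τ x => u τ x * outr α (fun _ => f) τ x with hF
  set F' : ℝ → ℝ → ℝ := fun τ x => w τ x * outr α (fun _ => f) τ x + u τ x *
    (-(1 / lam α τ ^ 3) * outr α (fun _ y => deriv f y + (2 * α + 1) * rho α τ * Lam f y) τ x)
    with hF'
  have hFi : ∀ τ ∈ Set.Icc t1 t2, Integrable (F τ) := by
    intro τ hτ
    refine (hexp.const_mul (Mu * D0)).mono'
      ((cu τ hτ).mul (cont_outr f τ hf.1.continuous)).aestronglyMeasurable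
      (Filter.Eventually.of_forall fun x => ?_)
    rw [Real.norm_eq_abs, hF, abs_mul]
    have a1 := hMu τ hτ x
    rw [iteratedDeriv_zero] at a1
    calc |u τ x| * |outr α (fun _ => f) τ x| ≤ Mu * (D0 * Real.exp (-(c'' * |x|))) :=
          mul_le_mul a1 (hD0 τ hτ x) (abs_nonneg _) Mu0
      _ = _ := by ring
  have hdF : ∀ τ ∈ Set.Icc t1 t2, ∀ x, HasDerivWithinAt (fun τ => F τ x) (F' τ x)
      (Set.Icc t1 t2) τ := by
    intro τ hτ x
    have k1 := hd 0 τ hτ x
    simp only [iteratedDeriv_zero] at k1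
    have k2 := (outr_dt hC h0 h1 fP x (lt_of_lt_of_le ht1 hτ.1)).hasDerivWithinAt
      (s := Set.Icc t1 t2)
    exact k1.mul k2
  have split : ∀ (τ x : ℝ), outr α (fun _ y => deriv f y + (2 * α + 1) * rho α τ * Lam f y) τ x =
      outr α (fun _ => deriv f) τ x + (2 * α + 1) * rho α τ * outr α (fun _ => Lam f) τ x := by
    intro τ x; unfold outr; ring
  have hbd : ∀ τ ∈ Set.Icc t1 t2, ∀ x, |F' τ x| ≤ (Mw * D0 + Mu * ((1 / lam α t1 ^ 3) *
      (D1 + (2 * α + 1) * rho α t2 * D2))) * Real.exp (-(c'' * |x|)) := by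
    intro τ hτ x
    have hτ0 := lt_of_lt_of_le ht1 hτ.1
    have a1 := hMu τ hτ x
    have a2 := hMw τ hτ x
    rw [iteratedDeriv_zero] at a1 a2
    have b0 := hD0 τ hτ x
    have b1 := hD1 τ hτ x
    have b2 := hD2 τ hτ x
    have hl := (hc τ hτ0).2.1
    have hr := (hc τ hτ0).2.2.1
    have m1 := hm t1 τ ht1 hτ.1
    have m2 := hm τ t2 hτ0 hτ.2
    set X := Real.exp (-(c'' * |x|)) with hX
    have hX0 : 0 < X := Real.exp_pos _
    have k1 : |outr α (fun _ y => deriv f y + (2 * α + 1) * rho α τ * Lam f y) τ x| ≤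
        (D1 + (2 * α + 1) * rho α t2 * D2) * X := by
      rw [split]
      refine (abs_add_le _ _).trans ?_
      rw [abs_mul, abs_of_pos (by positivity : 0 < (2 * α + 1) * rho α τ)]
      have : (2 * α + 1) * rho α τ * |outr α (fun _ => Lam f) τ x| ≤
          (2 * α + 1) * rho α t2 * (D2 * X) := by
        apply mul_le_mul _ b2 (abs_nonneg _) (by positivity)
        exact mul_le_mul_of_nonneg_left m2.2.2 (by positivity)
      calc |outr α (fun _ => deriv f) τ x| + (2 * α + 1) * rho α τ * |outr α (fun _ => Lam f) τ x|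
          ≤ D1 * X + (2 * α + 1) * rho α t2 * (D2 * X) := add_le_add b1 this
        _ = _ := by ring
    have k2 : 1 / lam α τ ^ 3 ≤ 1 / lam α t1 ^ 3 := by
      apply one_div_le_one_div_of_le (by positivity)
      exact pow_le_pow_left₀ hl1.le m1.2.1 3
    rw [hF']
    refine (abs_add_le _ _).trans ?_
    rw [abs_mul, abs_mul (u τ x), abs_mul (-(1 / lam α τ ^ 3)), abs_neg,
      abs_of_pos (by positivity : 0 < 1 / lam α τ ^ 3)]
    have k3 : 1 / lam α τ ^ 3 * |outr α (fun _ y => deriv f y + (2 * α + 1) * rho α τ *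
        Lam f y) τ x| ≤ 1 / lam α t1 ^ 3 * ((D1 + (2 * α + 1) * rho α t2 * D2) * X) :=
      mul_le_mul k2 k1 (abs_nonneg _) (by positivity)
    calc |w τ x| * |outr α (fun _ => f) τ x| + |u τ x| * (1 / lam α τ ^ 3 *
          |outr α (fun _ y => deriv f y + (2 * α + 1) * rho α τ * Lam f y) τ x|)
        ≤ Mw * (D0 * X) + Mu * (1 / lam α t1 ^ 3 * ((D1 + (2 * α + 1) * rho α t2 * D2) * X)) :=
          add_le_add (mul_le_mul a2 b0 (abs_nonneg _) Mw0)
            (mul_le_mul a1 k3 (by positivity) Mu0)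
      _ = _ := by ring
  have hmain := deriv_int (convex_Icc t1 t2) ht hFi (hexp.const_mul _) hbd hdF
  have hτ0 := lt_of_lt_of_le ht1 ht.1
  have hl := (hc t hτ0).2.1
  -- integrability of the two pieces
  have i1 : Integrable (fun x => w t x * outr α (fun _ => f) t x) := by
    refine (hexp.const_mul (Mw * D0)).mono'
      ((cw t ht).mul (cont_outr f t hf.1.continuous)).aestronglyMeasurable
      (Filter.Eventually.of_forall fun x => ?_)
    rw [Real.norm_eq_abs, abs_mul]
    have a1 := hMw t ht x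
    rw [iteratedDeriv_zero] at a1
    calc |w t x| * |outr α (fun _ => f) t x| ≤ Mw * (D0 * Real.exp (-(c'' * |x|))) :=
          mul_le_mul a1 (hD0 t ht x) (abs_nonneg _) Mw0
      _ = _ := by ring
  have gE : IsE (fun y => deriv f y + (2 * α + 1) * rho α t * Lam f y) :=
    addE f'E (smulE _ LE)
  have i2 : Integrable (fun x => u t x *
      (-(1 / lam α t ^ 3) * outr α (fun _ y => deriv f y + (2 * α + 1) * rho α t * Lam f y) t x)) := by
    obtain ⟨c3, D3, c30, D30, -, hD3⟩ := outr_bd hC h0 h1 gE ht1 ht12.le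
    refine ((int_exp_abs c30).const_mul (Mu * ((1 / lam α t ^ 3) * D3))).mono'
      ((cu t ht).mul (continuous_const.mul (cont_outr _ t gE.1.continuous))).aestronglyMeasurable
      (Filter.Eventually.of_forall fun x => ?_)
    rw [Real.norm_eq_abs, abs_mul, abs_mul, abs_neg,
      abs_of_pos (by positivity : 0 < 1 / lam α t ^ 3)]
    have a1 := hMu t ht x
    rw [iteratedDeriv_zero] at a1
    calc |u t x| * (1 / lam α t ^ 3 *
        |outr α (fun _ y => deriv f y + (2 * α + 1) * rho α t * Lam f y) t x|)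
        ≤ Mu * (1 / lam α t ^ 3 * (D3 * Real.exp (-(c3 * |x|)))) :=
          mul_le_mul a1 (mul_le_mul_of_nonneg_left (hD3 t ht x) (by positivity)) (by positivity) Mu0
      _ = _ := by ring
  have e1 : (∫ x, F' t x) = (∫ y, inn α w t y * f y) + (1 / lam α t ^ 3) *
      ∫ y, inn α u t y * (-deriv f y - (2 * α + 1) * rho α t * Lam f y) := by
    rw [hF']
    simp only []
    rw [integral_add i1 i2, pair_outr α w f t hl]
    congr 1
    have e2 : (fun y => inn α u t y * (-deriv f y - (2 * α + 1) * rho α t * Lam f y)) =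
        fun y => (-1) * (inn α u t y * (deriv f y + (2 * α + 1) * rho α t * Lam f y)) := by
      funext y; ring
    rw [e2, integral_const_mul, pair_outr α u _ t hl, ← integral_const_mul, ← integral_const_mul]
    congr 1
    funext x
    ring
  rw [e1] at hmain
  refine hmain.congr (fun τ hτ => ?_) ?_
  · exact pair_outr α u f τ ((hc τ (lt_of_lt_of_le ht1 hτ.1)).2.1)
  · exact pair_outr α u f t hl

end Pool.Agent.Helper33.KV
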