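import Pool.Agent.Helper98.KV.FB

/-!
# Project KV: uniform classes of families of functions
-/

set_option autoImplicit false

namespace Pool.Agent.Helper98.KV

open Real MeasureTheory Pool.Agent.Helper41.KV Pool.Agent.Helper33.KV
open Pool.Agent.Helper61.KV (addE addP mulPE mulPP derE derP polyP thP sechE intE unifE unifP
  hasDerivAt_th th_sq cda poly_exp prod_bd)

/-- uniformly polynomially bounded family, `N` derivatives -/
def UP {ι : Type*} (S : Set ι) (N : ℕ) (F : ι → ℝ → ℝ) : Prop :=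
  ∃ (n : ℕ) (C : ℝ), 0 ≤ C ∧ ∀ t ∈ S, ContDiff ℝ (⊤ : ℕ∞) (F t) ∧
    ∀ k ≤ N, ∀ y, |iteratedDeriv k (F t) y| ≤ C * (1 + |y|) ^ n

/-- uniformly exponentially bounded family, `N` derivatives -/
def UE {ι : Type*} (S : Set ι) (N : ℕ) (F : ι → ℝ → ℝ) : Prop :=
  ∀ μ : ℝ, μ < 1 → ∃ C : ℝ, 0 ≤ C ∧ ∀ t ∈ S, ContDiff ℝ (⊤ : ℕ∞) (F t) ∧
    ∀ k ≤ N, ∀ y, |iteratedDeriv k (F t) y| ≤ C * Real.exp (-(μ * |y|))

variable {ι : Type*} {S : Set ι} {N : ℕ} {F G : ι → ℝ → ℝ} {f : ℝ → ℝ}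

lemma UP_const (hf : IsP f) : UP S N (fun _ => f) := by
  obtain ⟨n, C, h0, h⟩ := unifP hf N
  exact ⟨n, C, h0, fun _ _ => ⟨hf.1, fun k hk y => h k hk y⟩⟩

lemma UE_const (hf : IsE f) : UE S N (fun _ => f) := by
  intro μ hμ
  obtain ⟨C, h0, h⟩ := unifE hf N μ hμ
  exact ⟨C, h0, fun _ _ => ⟨hf.1, fun k hk y => h k hk y⟩⟩

/-- bounded scalars -/
lemma UP_scal {c : ι → ℝ} {B : ℝ} (hc : ∀ t ∈ S, |c t| ≤ B) : UP S N (fun t _ => c t) := by
  refine ⟨0, |B|, abs_nonneg _, fun t ht => ⟨contDiff_const, fun k _ y => ?_⟩⟩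
  rw [pow_zero, mul_one]
  rcases Nat.eq_zero_or_pos k with h | h
  · subst h
    rw [iteratedDeriv_zero]
    exact (hc t ht).trans (le_abs_self _)
  · rw [iteratedDeriv_const, if_neg (by omega), abs_zero]
    exact abs_nonneg _

lemma UP_add (hF : UP S N F) (hG : UP S N G) : UP S N (fun t y => F t y + G t y) := by
  obtain ⟨n, C, c0, hC⟩ := hF
  obtain ⟨m, D, d0, hD⟩ := hG
  refine ⟨max n m, C + D, by positivity, fun t ht => ⟨(hC t ht).1.add (hD t ht).1, fun k hk y => ?_⟩⟩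
  have hy : 1 ≤ 1 + |y| := by linarith [abs_nonneg y]
  rw [iteratedDeriv_fun_add (cda (hC t ht).1 k y) (cda (hD t ht).1 k y), add_mul]
  refine (abs_add_le _ _).trans (add_le_add ?_ ?_)
  · exact ((hC t ht).2 k hk y).trans
      (mul_le_mul_of_nonneg_left (pow_le_pow_right₀ hy (le_max_left _ _)) c0)
  · exact ((hD t ht).2 k hk y).trans
      (mul_le_mul_of_nonneg_left (pow_le_pow_right₀ hy (le_max_right _ _)) d0)

lemma UE_add (hF : UE S N F) (hG : UE S N G) : UE S N (fun t y => F t y + G t y) := by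
  intro μ hμ
  obtain ⟨C, c0, hC⟩ := hF μ hμ
  obtain ⟨D, d0, hD⟩ := hG μ hμ
  refine ⟨C + D, by positivity, fun t ht => ⟨(hC t ht).1.add (hD t ht).1, fun k hk y => ?_⟩⟩
  rw [iteratedDeriv_fun_add (cda (hC t ht).1 k y) (cda (hD t ht).1 k y), add_mul]
  exact (abs_add_le _ _).trans (add_le_add ((hC t ht).2 k hk y) ((hD t ht).2 k hk y))

lemma UP_mul (hF : UP S N F) (hG : UP S N G) : UP S N (fun t y => F t y * G t y) := by
  obtain ⟨n, C, c0, hC⟩ := hF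
  obtain ⟨m, D, d0, hD⟩ := hG
  refine ⟨n + m, 2 ^ N * (C * D), by positivity,
    fun t ht => ⟨(hC t ht).1.mul (hD t ht).1, fun k hk y => ?_⟩⟩
  refine (prod_bd (hC t ht).1 (hD t ht).1 k y _ _ (fun i hi => (hC t ht).2 i (hi.trans hk) y)
    (fun i hi => (hD t ht).2 i (hi.trans hk) y)).trans ?_
  have h2 : (2 : ℝ) ^ k ≤ 2 ^ N := pow_le_pow_right₀ (by norm_num) hk
  calc (2 : ℝ) ^ k * (C * (1 + |y|) ^ n * (D * (1 + |y|) ^ m))
      ≤ 2 ^ N * (C * (1 + |y|) ^ n * (D * (1 + |y|) ^ m)) :=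
        mul_le_mul_of_nonneg_right h2 (by positivity)
    _ = 2 ^ N * (C * D) * (1 + |y|) ^ (n + m) := by rw [pow_add]; ring

lemma UE_mul (hF : UP S N F) (hG : UE S N G) : UE S N (fun t y => F t y * G t y) := by
  intro μ hμ
  obtain ⟨n, C, hC0, hC⟩ := hF
  obtain ⟨D, hD0, hD⟩ := hG ((μ + 1) / 2) (by linarith)
  obtain ⟨K, hK0, hK⟩ := poly_exp n ((1 - μ) / 2) (by linarith)
  refine ⟨2 ^ N * (C * K * D), by positivity,
    fun t ht => ⟨(hC t ht).1.mul (hD t ht).1, fun k hk y => ?_⟩⟩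
  refine (prod_bd (hC t ht).1 (hD t ht).1 k y _ _ (fun i hi => (hC t ht).2 i (hi.trans hk) y)
    (fun i hi => (hD t ht).2 i (hi.trans hk) y)).trans ?_
  have h1 := hK |y| (abs_nonneg y)
  have h2 : exp (-(μ * |y|)) = exp ((1 - μ) / 2 * |y|) * exp (-((μ + 1) / 2 * |y|)) := by
    rw [← Real.exp_add]; congr 1; ring
  rw [h2]
  have h3 : C * (1 + |y|) ^ n * (D * exp (-((μ + 1) / 2 * |y|)))
      ≤ C * (K * exp ((1 - μ) / 2 * |y|)) * (D * exp (-((μ + 1) / 2 * |y|))) := by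
    apply mul_le_mul_of_nonneg_right _ (by positivity)
    exact mul_le_mul_of_nonneg_left h1 hC0
  have h4 : (2 : ℝ) ^ k ≤ 2 ^ N := pow_le_pow_right₀ (by norm_num) hk
  calc (2 : ℝ) ^ k * (C * (1 + |y|) ^ n * (D * exp (-((μ + 1) / 2 * |y|))))
      ≤ 2 ^ N * (C * (1 + |y|) ^ n * (D * exp (-((μ + 1) / 2 * |y|)))) :=
        mul_le_mul_of_nonneg_right h4 (by positivity)
    _ ≤ 2 ^ N * (C * (K * exp ((1 - μ) / 2 * |y|)) * (D * exp (-((μ + 1) / 2 * |y|)))) :=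
        mul_le_mul_of_nonneg_left h3 (by positivity)
    _ = _ := by ring

lemma UE_deriv (hF : UE S (N + 1) F) : UE S N (fun t => deriv (F t)) := by
  intro μ hμ
  obtain ⟨C, c0, hC⟩ := hF μ hμ
  refine ⟨C, c0, fun t ht => ⟨(contDiff_infty_iff_deriv.mp (hC t ht).1).2, fun k hk y => ?_⟩⟩
  rw [← iteratedDeriv_succ']
  exact (hC t ht).2 (k + 1) (by omega) y

lemma UP_deriv (hF : UP S (N + 1) F) : UP S N (fun t => deriv (F t)) := by
  obtain ⟨n, C, c0, hC⟩ := hF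
  refine ⟨n, C, c0, fun t ht => ⟨(contDiff_infty_iff_deriv.mp (hC t ht).1).2, fun k hk y => ?_⟩⟩
  rw [← iteratedDeriv_succ']
  exact (hC t ht).2 (k + 1) (by omega) y

lemma UP_mono {M : ℕ} (h : M ≤ N) (hF : UP S N F) : UP S M F := by
  obtain ⟨n, C, c0, hC⟩ := hF
  exact ⟨n, C, c0, fun t ht => ⟨(hC t ht).1, fun k hk y => (hC t ht).2 k (hk.trans h) y⟩⟩

lemma UE_mono {M : ℕ} (h : M ≤ N) (hF : UE S N F) : UE S M F := by
  intro μ hμ
  obtain ⟨C, c0, hC⟩ := hF μ hμ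
  exact ⟨C, c0, fun t ht => ⟨(hC t ht).1, fun k hk y => (hC t ht).2 k (hk.trans h) y⟩⟩

lemma UE_UP (hF : UE S N F) : UP S N F := by
  obtain ⟨C, c0, hC⟩ := hF 0 one_pos
  refine ⟨0, C, c0, fun t ht => ⟨(hC t ht).1, fun k hk y => ?_⟩⟩
  simpa using (hC t ht).2 k hk y

lemma UP_pow (hF : UP S N F) (m : ℕ) : UP S N (fun t y => F t y ^ m) := by
  induction m with
  | zero => simpa using UP_const (S := S) (N := N) (cP 1)
  | succ m ih =>
    have h := UP_mul ih hF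
    have he : (fun t y => F t y ^ m * F t y) = fun t y => F t y ^ (m + 1) := by
      funext t y; ring
    rwa [he] at h

lemma UE_smooth (hF : UE S N F) {t : ι} (ht : t ∈ S) : ContDiff ℝ (⊤ : ℕ∞) (F t) := by
  obtain ⟨C, _, hC⟩ := hF 0 one_pos
  exact (hC t ht).1

end Pool.Agent.Helper98.KV
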