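import Pool.Agent.Helper98.KV.UC

/-!
# Project KV: uniform classes with an exponential weight of any rate
-/

set_option autoImplicit false

namespace Pool.Agent.Helper98.KV

open Real MeasureTheory Pool.Agent.Helper41.KV Pool.Agent.Helper33.KV
open Pool.Agent.Helper61.KV (addE addP mulPE mulPP derE derP polyP thP sechE intE unifE unifP
  hasDerivAt_th th_sq cda poly_exp prod_bd)

/-- uniformly bounded by `C exp (a |y|)` with `N` derivatives; `a` may be negative -/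
def UX {ι : Type*} (S : Set ι) (N : ℕ) (a : ℝ) (F : ι → ℝ → ℝ) : Prop :=
  ∃ C : ℝ, 0 ≤ C ∧ ∀ t ∈ S, ContDiff ℝ (⊤ : ℕ∞) (F t) ∧
    ∀ k ≤ N, ∀ y, |iteratedDeriv k (F t) y| ≤ C * Real.exp (a * |y|)

variable {ι : Type*} {S : Set ι} {N : ℕ} {a b : ℝ} {F G : ι → ℝ → ℝ} {f : ℝ → ℝ}

lemma UX_mono (h : a ≤ b) (hF : UX S N a F) : UX S N b F := by
  obtain ⟨C, c0, hC⟩ := hF
  refine ⟨C, c0, fun t ht => ⟨(hC t ht).1, fun k hk y => ((hC t ht).2 k hk y).trans ?_⟩⟩
  apply mul_le_mul_of_nonneg_left _ c0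
  exact Real.exp_le_exp.2 (mul_le_mul_of_nonneg_right h (abs_nonneg y))

lemma UX_monoN {M : ℕ} (h : M ≤ N) (hF : UX S N a F) : UX S M a F := by
  obtain ⟨C, c0, hC⟩ := hF
  exact ⟨C, c0, fun t ht => ⟨(hC t ht).1, fun k hk y => (hC t ht).2 k (hk.trans h) y⟩⟩

lemma UX_of_UP (ha : 0 < a) (hF : UP S N F) : UX S N a F := by
  obtain ⟨n, C, c0, hC⟩ := hF
  obtain ⟨K, K0, hK⟩ := poly_exp n a ha
  refine ⟨C * K, by positivity, fun t ht => ⟨(hC t ht).1, fun k hk y =>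
    ((hC t ht).2 k hk y).trans ?_⟩⟩
  have h := hK |y| (abs_nonneg y)
  calc C * (1 + |y|) ^ n ≤ C * (K * Real.exp (a * |y|)) := mul_le_mul_of_nonneg_left h c0
    _ = _ := by ring

lemma UX_of_UE (ha : -1 < a) (hF : UE S N F) : UX S N a F := by
  obtain ⟨C, c0, hC⟩ := hF (-a) (by linarith)
  refine ⟨C, c0, fun t ht => ⟨(hC t ht).1, fun k hk y => ((hC t ht).2 k hk y).trans
    (le_of_eq ?_)⟩⟩
  congr 2; ring

lemma UX_add (hF : UX S N a F) (hG : UX S N a G) : UX S N a (fun t y => F t y + G t y) := by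
  obtain ⟨C, c0, hC⟩ := hF
  obtain ⟨D, d0, hD⟩ := hG
  refine ⟨C + D, by positivity, fun t ht => ⟨(hC t ht).1.add (hD t ht).1, fun k hk y => ?_⟩⟩
  rw [iteratedDeriv_fun_add (cda (hC t ht).1 k y) (cda (hD t ht).1 k y), add_mul]
  exact (abs_add_le _ _).trans (add_le_add ((hC t ht).2 k hk y) ((hD t ht).2 k hk y))

lemma UX_mul (hF : UX S N a F) (hG : UX S N b G) : UX S N (a + b) (fun t y => F t y * G t y) := by
  obtain ⟨C, c0, hC⟩ := hF
  obtain ⟨D, d0, hD⟩ := hG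
  refine ⟨2 ^ N * (C * D), by positivity,
    fun t ht => ⟨(hC t ht).1.mul (hD t ht).1, fun k hk y => ?_⟩⟩
  refine (prod_bd (hC t ht).1 (hD t ht).1 k y _ _ (fun i hi => (hC t ht).2 i (hi.trans hk) y)
    (fun i hi => (hD t ht).2 i (hi.trans hk) y)).trans ?_
  have h2 : (2 : ℝ) ^ k ≤ 2 ^ N := pow_le_pow_right₀ (by norm_num) hk
  calc (2 : ℝ) ^ k * (C * Real.exp (a * |y|) * (D * Real.exp (b * |y|)))
      ≤ 2 ^ N * (C * Real.exp (a * |y|) * (D * Real.exp (b * |y|))) :=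
        mul_le_mul_of_nonneg_right h2 (by positivity)
    _ = 2 ^ N * (C * D) * Real.exp ((a + b) * |y|) := by
        rw [add_mul, Real.exp_add]; ring

lemma UX_deriv (hF : UX S (N + 1) a F) : UX S N a (fun t => deriv (F t)) := by
  obtain ⟨C, c0, hC⟩ := hF
  refine ⟨C, c0, fun t ht => ⟨(contDiff_infty_iff_deriv.mp (hC t ht).1).2, fun k hk y => ?_⟩⟩
  rw [← iteratedDeriv_succ']
  exact (hC t ht).2 (k + 1) (by omega) y

lemma UX_smooth (hF : UX S N a F) {t : ι} (ht : t ∈ S) : ContDiff ℝ (⊤ : ℕ∞) (F t) := by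
  obtain ⟨C, _, hC⟩ := hF
  exact (hC t ht).1

lemma UX_constP (ha : 0 < a) (hf : IsP f) : UX S N a (fun _ => f) := UX_of_UP ha (UP_const hf)

lemma UX_constE (ha : -1 < a) (hf : IsE f) : UX S N a (fun _ => f) := UX_of_UE ha (UE_const hf)

lemma UX_const (c : ℝ) : UX S N 0 (fun _ _ => c) := by
  refine ⟨|c|, abs_nonneg _, fun t _ => ⟨contDiff_const, fun k _ y => ?_⟩⟩
  rw [zero_mul, Real.exp_zero, mul_one]
  rcases Nat.eq_zero_or_pos k with h | h
  · subst h
    rw [iteratedDeriv_zero]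
  · rw [iteratedDeriv_const, if_neg (by omega), abs_zero]
    exact abs_nonneg _

lemma UX_scal {c : ι → ℝ} {B : ℝ} (hc : ∀ t ∈ S, |c t| ≤ B) : UX S N 0 (fun t _ => c t) := by
  refine ⟨|B|, abs_nonneg _, fun t ht => ⟨contDiff_const, fun k _ y => ?_⟩⟩
  rw [zero_mul, Real.exp_zero, mul_one]
  rcases Nat.eq_zero_or_pos k with h | h
  · subst h
    rw [iteratedDeriv_zero]
    exact (hc t ht).trans (le_abs_self _)
  · rw [iteratedDeriv_const, if_neg (by omega), abs_zero]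
    exact abs_nonneg _

lemma UX_pow (hF : UX S N a F) (m : ℕ) : UX S N (m * a) (fun t y => F t y ^ m) := by
  induction m with
  | zero =>
    have h := UX_const (S := S) (N := N) 1
    simpa using h
  | succ m ih =>
    have h := UX_mul ih hF
    have he : (fun t y => F t y ^ m * F t y) = fun t y => F t y ^ (m + 1) := by
      funext t y; ring
    rw [he] at h
    refine UX_mono (le_of_eq ?_) h
    push_cast; ring

end Pool.Agent.Helper98.KV
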